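import Pool.Agent.Helper1.FG.Desc

/-! The bracket relations for FG-22 (lemma (E1) of helper35): closedness of the contracted volume form makes the span of
the three fields a Lie algebra. -/

set_option autoImplicit false

namespace Pool.Agent.Helper23.FG22

open MvPolynomial
open scoped BigOperators
open Pool.Agent.Helper71.FL
open Pool.Agent.Helper1.FG

/-- linear forms -/
noncomputable def lf {n : ℕ} (u : Fin n → ℂ) : MvPolynomial (Fin n) ℂ := ∑ i, C (u i) * X i

theorem eval_lf {n : ℕ} (u x : Fin n → ℂ) : eval x (lf u) = ∑ i, u i * x i := by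
  unfold lf
  rw [map_sum]
  exact Finset.sum_congr rfl fun i _ => by rw [map_mul, eval_C, eval_X]

theorem pderiv_lf {n : ℕ} (u : Fin n → ℂ) (j : Fin n) : pderiv j (lf u) = C (u j) := by
  unfold lf
  rw [map_sum, Finset.sum_eq_single j]
  · rw [pderiv_C_mul, pderiv_X_self, mul_one]
  · intro i _ hi
    rw [pderiv_C_mul, pderiv_X_of_ne hi, mul_zero]
  · intro h
    exact absurd (Finset.mem_univ _) h

theorem lf_hom {n : ℕ} (u : Fin n → ℂ) : (lf u).IsHomogeneous 1 := by
  unfold lf
  refine IsHomogeneous.sum _ _ _ fun i _ => ?_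
  have := (isHomogeneous_C (Fin n) (u i)).mul (isHomogeneous_X ℂ i)
  simpa using this

theorem eq_lf {n : ℕ} {p : MvPolynomial (Fin n) ℂ} (hp : p.IsHomogeneous 1) :
    p = lf (fun j => coeff 0 (pderiv j p)) := by
  have h1 := hp.sum_X_mul_pderiv
  rw [one_smul] at h1
  conv_lhs => rw [← h1]
  unfold lf
  refine Finset.sum_congr rfl fun i _ => ?_
  have h2 : (pderiv i p).IsHomogeneous 0 := hp.pderiv
  have h3 : (pderiv i p).totalDegree = 0 := by
    have := h2.totalDegree_le
    omega
  rw [totalDegree_eq_zero_iff_eq_C] at h3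
  conv_lhs => rw [h3]
  ring

theorem eval_smul_hom {n t : ℕ} {p : MvPolynomial (Fin n) ℂ} (hp : p.IsHomogeneous t)
    (s : ℂ) (v : Fin n → ℂ) : eval (s • v) p = s ^ t * eval v p := by
  rw [eval_eq, eval_eq, Finset.mul_sum]
  refine Finset.sum_congr rfl fun d hd => ?_
  have h1 : d.degree = t := by
    by_contra h3
    exact (mem_support_iff.mp hd) (hp.coeff_eq_zero h3)
  have h2 : ∏ i ∈ d.support, (s • v) i ^ d i = s ^ t * ∏ i ∈ d.support, v i ^ d i := by
    simp only [Pi.smul_apply, smul_eq_mul, mul_pow, Finset.prod_mul_distrib]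
    rw [Finset.prod_pow_eq_pow_sum]
    congr 2
  rw [h2]; ring

section
variable {S : Type} [CommRing S]

theorem single_map' {S S' : Type} [CommRing S] [CommRing S'] (φ : S →+* S') {m : ℕ}
    (j : Fin m) : (fun i => φ ((Pi.single j 1 : Fin m → S) i)) = (Pi.single j 1 : Fin m → S') := by
  funext i
  by_cases h : i = j
  · subst h
    simp
  · rw [Pi.single_eq_of_ne h, Pi.single_eq_of_ne h, map_zero]

theorem mins_map' {S S' : Type} [CommRing S] [CommRing S'] (φ : S →+* S') {k : ℕ}
    (r : Fin k → Fin (k + 2) → S) (p : Fin (k + 2) × Fin (k + 2)) :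
    mins (fun l i => φ (r l i)) p = φ (mins r p) := by
  unfold mins
  rw [← alp_map r φ, single_map' φ p.1, single_map' φ p.2]

end

theorem br_aux {n : ℕ} {R : Type} [CommRing R] {θ : Fin n → Fin n → MvPolynomial (Fin n) R}
    (hsw : ∀ i j, θ i j = - θ j i)
    (hcl : ∀ i j k, pderiv i (θ j k) + pderiv j (θ k i) + pderiv k (θ i j) = 0)
    {u w : Fin n → MvPolynomial (Fin n) R} (hu : ∀ k, ∑ j, u j * θ j k = 0)
    (hw : ∀ k, ∑ j, w j * θ j k = 0) (k : Fin n) :
    ∑ j, (∑ i, (u i * pderiv i (w j) - w i * pderiv i (u j))) * θ j k = 0 := by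
  have hd : ∀ x : Fin n → MvPolynomial (Fin n) R, (∀ k, ∑ j, x j * θ j k = 0) → ∀ k i : Fin n,
      ∑ j, x j * pderiv i (θ j k) = - ∑ j, pderiv i (x j) * θ j k := by
    intro x hx k i
    have h1 := congrArg (pderiv i) (hx k)
    rw [map_sum, map_zero] at h1
    rw [eq_neg_iff_add_eq_zero, ← Finset.sum_add_distrib, ← h1]
    refine Finset.sum_congr rfl fun j _ => ?_
    rw [pderiv_mul]
    ring
  -- the three sums
  have t1 : ∑ i, ∑ j, u i * w j * pderiv i (θ j k) =
      - ∑ j, (∑ i, u i * pderiv i (w j)) * θ j k := by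
    have h1 : ∀ i, ∑ j, u i * w j * pderiv i (θ j k) =
        - ∑ j, u i * pderiv i (w j) * θ j k := by
      intro i
      have h2 : ∑ j, u i * w j * pderiv i (θ j k) = u i * ∑ j, w j * pderiv i (θ j k) := by
        rw [Finset.mul_sum]
        exact Finset.sum_congr rfl fun j _ => by ring
      rw [h2, hd w hw, mul_neg, Finset.mul_sum]
      congr 1
      exact Finset.sum_congr rfl fun j _ => by ring
    rw [Finset.sum_congr rfl fun i _ => h1 i, Finset.sum_neg_distrib, Finset.sum_comm]
    congr 1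
    exact Finset.sum_congr rfl fun j _ => (Finset.sum_mul _ _ _).symm
  have t2 : ∑ i, ∑ j, u i * w j * pderiv j (θ k i) =
      ∑ i, (∑ j, w j * pderiv j (u i)) * θ i k := by
    rw [Finset.sum_comm]
    have h1 : ∀ j, ∑ i, u i * w j * pderiv j (θ k i) =
        ∑ i, w j * pderiv j (u i) * θ i k := by
      intro j
      have h2 : ∑ i, u i * w j * pderiv j (θ k i) =
          - (w j * ∑ i, u i * pderiv j (θ i k)) := by
        rw [Finset.mul_sum, ← Finset.sum_neg_distrib]
        refine Finset.sum_congr rfl fun i _ => ?_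
        rw [hsw k i, map_neg]
        ring
      rw [h2, hd u hu, mul_neg, neg_neg, Finset.mul_sum]
      exact Finset.sum_congr rfl fun i _ => by ring
    rw [Finset.sum_congr rfl fun j _ => h1 j, Finset.sum_comm]
    exact Finset.sum_congr rfl fun i _ => (Finset.sum_mul _ _ _).symm
  have t3 : ∑ i, ∑ j, u i * w j * pderiv k (θ i j) = 0 := by
    rw [Finset.sum_comm]
    have h1 : ∀ j, ∑ i, u i * w j * pderiv k (θ i j) =
        ∑ i, pderiv k (u i) * (w j * θ j i) := by
      intro j
      have h2 : ∑ i, u i * w j * pderiv k (θ i j) = w j * ∑ i, u i * pderiv k (θ i j) := by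
        rw [Finset.mul_sum]
        exact Finset.sum_congr rfl fun j _ => by ring
      rw [h2, hd u hu, mul_neg, Finset.mul_sum, ← Finset.sum_neg_distrib]
      refine Finset.sum_congr rfl fun i _ => ?_
      rw [hsw i j]
      ring
    rw [Finset.sum_congr rfl fun j _ => h1 j, Finset.sum_comm]
    refine Finset.sum_eq_zero fun i _ => ?_
    rw [← Finset.mul_sum, hw, mul_zero]
  have h0 : ∑ i, ∑ j, u i * w j * (pderiv i (θ j k) + pderiv j (θ k i) + pderiv k (θ i j)) =
      0 := by
    refine Finset.sum_eq_zero fun i _ => Finset.sum_eq_zero fun j _ => ?_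
    rw [hcl, mul_zero]
  simp only [mul_add, Finset.sum_add_distrib] at h0
  rw [t1, t2, t3, add_zero] at h0
  have h1 : ∀ j, (∑ i, (u i * pderiv i (w j) - w i * pderiv i (u j))) * θ j k =
      (∑ i, u i * pderiv i (w j)) * θ j k - (∑ i, w i * pderiv i (u j)) * θ j k := by
    intro j
    rw [Finset.sum_sub_distrib, sub_mul]
  rw [Finset.sum_congr rfl fun j _ => h1 j, Finset.sum_sub_distrib]
  linear_combination -h0

/-- contraction with the bracket -/
theorem ct_bracket {v : Fin 3 → Fin 5 → MvPolynomial (Fin 5) ℂ} (hcl : ClV (k := 3) v)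
    (a b : Fin 3) (k : Fin 5) :
    alp (k := 3) v (fun j => ∑ i, (v a i * pderiv i (v b j) - v b i * pderiv i (v a j)))
      (Pi.single k 1) = 0 := by
  rw [alp_std]
  have hc : ∀ (l : Fin 3) (k : Fin 5), ∑ j, v l j * mins (k := 3) v (j, k) = 0 := by
    intro l k
    have h1 := alp_std (k := 3) v (v l) (Pi.single k 1)
    rw [alp_r] at h1
    exact h1.symm
  exact br_aux (θ := fun i j => mins (k := 3) v (i, j)) (fun i j => alp_swap (k := 3) v _ _)
    (fun i j k => hcl i j k) (fun k => hc a k) (fun k => hc b k) k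

/-- independence at a point where the minors do not vanish -/
theorem ind_of_mins {r : Fin 3 → Fin 5 → ℂ} {p : Fin 5 × Fin 5} (h : mins (k := 3) r p ≠ 0)
    {c : Fin 3 → ℂ} (hc : ∀ i, ∑ l, c l * r l i = 0) : c = 0 := by
  obtain ⟨adj, _, h2⟩ := cram2 (k := 3) r (Pi.single p.1 1) (Pi.single p.2 1)
  have h3 := h2 c
  have h4 : (fun i => ∑ l, c l * r l i) = 0 := funext hc
  rw [h4, map_zero] at h3
  exact (smul_eq_zero.1 h3.symm).resolve_left h

section main
variable {v : Fin 3 → Fin 5 → MvPolynomial (Fin 5) ℂ} {A : Fin 3 → Matrix (Fin 5) (Fin 5) ℂ}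
variable {P : Fin 5 → MvPolynomial (Fin 3) ℂ} {B : Matrix (Fin 5) (Fin 3) ℂ}

theorem eval_v (hA : ∀ l i, v l i = lf (A l i)) (x : Fin 5 → ℂ) (l : Fin 3) (i : Fin 5) :
    eval x (v l i) = (A l).mulVec x i := by
  rw [hA, eval_lf]
  rfl

theorem eval_aeval' {n m : ℕ} (Q : Fin n → MvPolynomial (Fin m) ℂ) (x : Fin m → ℂ)
    (q : MvPolynomial (Fin n) ℂ) : eval x (aeval Q q) = eval (fun j => eval x (Q j)) q := by
  induction q using MvPolynomial.induction_on with
  | C a => simp
  | add p q hp hq => rw [map_add, map_add, map_add, hp, hq]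
  | mul_X p i hp => rw [map_mul, map_mul, map_mul, hp, aeval_X, eval_X]

theorem ind_at (hA : ∀ l i, v l i = lf (A l i)) (hB : ∀ i, P i = lf (B i))
    (hT : Triv (mins (k := 3) (fun l i => aeval P (v l i)))) {x : Fin 3 → ℂ} (hx : x ≠ 0)
    {c : Fin 3 → ℂ} (hc : ∑ l, c l • (A l).mulVec (B.mulVec x) = 0) : c = 0 := by
  have h1 : ∃ p, eval x (mins (k := 3) (fun l i => aeval P (v l i)) p) ≠ 0 := by
    by_contra hcon
    push Not at hcon
    exact hx (hT x hcon)
  obtain ⟨p, hp⟩ := h1
  rw [← mins_map' (k := 3) (eval x)] at hp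
  refine ind_of_mins hp fun i => ?_
  have h2 : ∀ l, eval x (aeval P (v l i)) = (A l).mulVec (B.mulVec x) i := by
    intro l
    rw [eval_aeval', eval_v hA]
    congr 2
    funext j
    rw [hB, eval_lf]
    rfl
  have h3 := congrFun hc i
  rw [Finset.sum_apply] at h3
  simp only [h2]
  exact h3

theorem alp_aeval {n m : ℕ} (Q : Fin n → MvPolynomial (Fin m) ℂ)
    (v : Fin 3 → Fin 5 → MvPolynomial (Fin n) ℂ) (x : Fin 5 → MvPolynomial (Fin n) ℂ) (j : Fin 5) :
    alp (k := 3) (fun l i => aeval Q (v l i)) (fun i => aeval Q (x i)) (Pi.single j 1) =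
      aeval Q (alp (k := 3) v x (Pi.single j 1)) := by
  let φ : MvPolynomial (Fin n) ℂ →+* MvPolynomial (Fin m) ℂ :=
    (aeval Q : MvPolynomial (Fin n) ℂ →ₐ[ℂ] MvPolynomial (Fin m) ℂ).toRingHom
  have h := alp_map (k := 3) v φ x (Pi.single j 1)
  rw [show (fun i : Fin (3 + 2) => φ ((Pi.single j 1 : Fin (3 + 2) → MvPolynomial (Fin n) ℂ) i)) =
    Pi.single j 1 from single_map' φ (m := 5) j] at h
  exact h

/-- the bracket relations -/
theorem bracket (hA : ∀ l i, v l i = lf (A l i)) (hB : ∀ i, P i = lf (B i))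
    (hcl : ClV (k := 3) v) (hT : Triv (mins (k := 3) (fun l i => aeval P (v l i)))) (a b : Fin 3) :
    ∃ f : Fin 3 → ℂ, A b * A a - A a * A b = ∑ l, f l • A l := by
  let br : Fin 5 → MvPolynomial (Fin 5) ℂ :=
    fun j => ∑ i, (v a i * pderiv i (v b j) - v b i * pderiv i (v a j))
  let M : Matrix (Fin 5) (Fin 5) ℂ := A b * A a - A a * A b
  have hbr : ∀ j, br j = lf (M j) := by
    intro j
    show ∑ i, (v a i * pderiv i (v b j) - v b i * pderiv i (v a j)) = _
    simp only [hA, pderiv_lf]
    have h1 : ∀ i, lf (A a i) * C (A b j i) - lf (A b i) * C (A a j i) =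
        ∑ m, C (A b j i * A a i m - A a j i * A b i m) * X m := by
      intro i
      unfold lf
      rw [Finset.sum_mul, Finset.sum_mul, ← Finset.sum_sub_distrib]
      refine Finset.sum_congr rfl fun m _ => ?_
      rw [C_sub, C_mul, C_mul]
      ring
    rw [Finset.sum_congr rfl fun i _ => h1 i, Finset.sum_comm]
    unfold lf
    refine Finset.sum_congr rfl fun m _ => ?_
    rw [← Finset.sum_mul, ← map_sum]
    congr 2
    simp only [M, Matrix.sub_apply, Matrix.mul_apply, Finset.sum_sub_distrib]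
  -- extension by one more vector
  have key : ∀ p : Fin 5 → ℂ, ∃ f : Fin 3 → ℂ,
      (∀ x : Fin 3 → ℂ, M.mulVec (B.mulVec x) = ∑ l, f l • (A l).mulVec (B.mulVec x)) ∧
      M.mulVec p = ∑ l, f l • (A l).mulVec p := by
    intro p
    let Ψ : Fin 5 → MvPolynomial (Fin 4) ℂ := fun i => lf (Fin.snoc (B i) (p i) : Fin 4 → ℂ)
    have hΨ : ∀ (i : Fin 5) (x : Fin 4 → ℂ),
        eval x (Ψ i) = B.mulVec (fun j => x j.castSucc) i + p i * x (Fin.last 3) := by
      intro i x
      show eval x (lf _) = _
      rw [eval_lf, Fin.sum_univ_castSucc]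
      simp only [Fin.snoc_castSucc, Fin.snoc_last]
      rfl
    have hr : ∀ l i, (aeval Ψ (v l i)) = lf (fun s => ∑ m, A l i m *
        (Fin.snoc (B m) (p m) : Fin 4 → ℂ) s) := by
      intro l i
      rw [hA]
      unfold lf
      rw [map_sum]
      have h1 : ∀ m, aeval Ψ (C (A l i m) * X m) =
          ∑ s, C (A l i m * (Fin.snoc (B m) (p m) : Fin 4 → ℂ) s) * X s := by
        intro m
        rw [map_mul, aeval_X, ← algebraMap_eq, AlgHom.commutes, algebraMap_eq]
        show _ * lf _ = _
        unfold lf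
        rw [Finset.mul_sum]
        refine Finset.sum_congr rfl fun s _ => ?_
        rw [C_mul]
        ring
      rw [Finset.sum_congr rfl fun m _ => h1 m, Finset.sum_comm]
      refine Finset.sum_congr rfl fun s _ => ?_
      rw [← Finset.sum_mul, ← map_sum]
    have hrM : ∀ i, (aeval Ψ (br i)) = lf (fun s => ∑ m, M i m *
        (Fin.snoc (B m) (p m) : Fin 4 → ℂ) s) := by
      intro i
      rw [hbr]
      unfold lf
      rw [map_sum]
      have h1 : ∀ m, aeval Ψ (C (M i m) * X m) =
          ∑ s, C (M i m * (Fin.snoc (B m) (p m) : Fin 4 → ℂ) s) * X s := by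
        intro m
        rw [map_mul, aeval_X, ← algebraMap_eq, AlgHom.commutes, algebraMap_eq]
        show _ * lf _ = _
        unfold lf
        rw [Finset.mul_sum]
        refine Finset.sum_congr rfl fun s _ => ?_
        rw [C_mul]
        ring
      rw [Finset.sum_congr rfl fun m _ => h1 m, Finset.sum_comm]
      refine Finset.sum_congr rfl fun s _ => ?_
      rw [← Finset.sum_mul, ← map_sum]
    obtain ⟨_, hK, _⟩ := exact_of_triv (N := 4) (k := 3) (by norm_num) (fun _ => 1) (fun _ => 0)
      (fun l i => aeval Ψ (v l i)) (by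
        intro l i
        rw [hr]
        exact lf_hom _) (by
      intro x hx
      have h3 : x (Fin.last 3) = 0 := by
        have := hx (Sum.inr ⟨Fin.last 3, by simp⟩)
        simpa [pads] using this
      have h4 : (fun j : Fin 3 => x j.castSucc) = 0 := by
        apply hT
        intro q
        have h5 := hx (Sum.inl q)
        rw [Sum.elim_inl, ← mins_map' (k := 3) (eval x)] at h5
        refine (mins_map' (k := 3) (eval (fun j : Fin 3 => x j.castSucc))
          (fun l i => aeval P (v l i)) q).symm.trans ?_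
        rw [← h5]
        congr 1
        funext l i
        rw [eval_aeval', eval_aeval']
        congr 1
        congr 1
        funext j
        rw [hΨ, h3, mul_zero, add_zero, hB, eval_lf]
        rfl
      funext j
      refine Fin.lastCases ?_ (fun j => ?_) j
      · exact h3
      · exact congrFun h4 j)
    obtain ⟨F, hF⟩ := hK (fun i => aeval Ψ (br i)) (by
      intro j
      rw [alp_swap]
      have h1 : alp (k := 3) v br (Pi.single j 1) = 0 := ct_bracket hcl a b j
      rw [alp_aeval Ψ v br j, h1, map_zero, neg_zero])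
    have hco : ∀ (i : Fin 5) (s : Fin 4), ∑ m, M i m * (Fin.snoc (B m) (p m) : Fin 4 → ℂ) s =
        ∑ l, eval 0 (F l) * ∑ m, A l i m * (Fin.snoc (B m) (p m) : Fin 4 → ℂ) s := by
      intro i s
      have h1 := congrArg (fun q => eval 0 (pderiv s q)) (hF i)
      dsimp only at h1
      rw [hrM, pderiv_lf, eval_C, map_sum, map_sum] at h1
      rw [h1]
      refine Finset.sum_congr rfl fun l _ => ?_
      rw [pderiv_mul, hr, pderiv_lf, map_add, map_mul, map_mul, eval_lf, eval_C]
      have h2 : ∀ u : Fin 4 → ℂ, ∑ i, u i * (0 : Fin 4 → ℂ) i = 0 := by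
        intro u
        refine Finset.sum_eq_zero fun i _ => ?_
        rw [Pi.zero_apply, mul_zero]
      rw [h2, mul_zero, zero_add]
    refine ⟨fun l => eval 0 (F l), ?_, ?_⟩
    · intro x
      funext i
      have h1 : ∀ N : Matrix (Fin 5) (Fin 5) ℂ, N.mulVec (B.mulVec x) i =
          ∑ s : Fin 3, (∑ m, N i m * (Fin.snoc (B m) (p m) : Fin 4 → ℂ) s.castSucc) * x s := by
        intro N
        simp only [Fin.snoc_castSucc, Matrix.mulVec, dotProduct, Finset.mul_sum, Finset.sum_mul]
        rw [Finset.sum_comm]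
        refine Finset.sum_congr rfl fun s _ => Finset.sum_congr rfl fun m _ => ?_
        ring
      rw [h1, Finset.sum_apply]
      simp only [hco, Pi.smul_apply, smul_eq_mul]
      simp only [h1, Finset.sum_mul, Finset.mul_sum]
      rw [Finset.sum_comm]
      refine Finset.sum_congr rfl fun l _ => Finset.sum_congr rfl fun s _ =>
        Finset.sum_congr rfl fun m _ => ?_
      ring
    · funext i
      have h1 : ∀ N : Matrix (Fin 5) (Fin 5) ℂ, N.mulVec p i =
          ∑ m, N i m * (Fin.snoc (B m) (p m) : Fin 4 → ℂ) (Fin.last 3) := by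
        intro N
        simp only [Fin.snoc_last]
        rfl
      rw [h1, hco, Finset.sum_apply]
      refine Finset.sum_congr rfl fun l _ => ?_
      rw [Pi.smul_apply, h1, smul_eq_mul]
  obtain ⟨f, hf, _⟩ := key 0
  refine ⟨f, ?_⟩
  have h1 : ∀ p : Fin 5 → ℂ, M.mulVec p = (∑ l, f l • A l).mulVec p := by
    intro p
    obtain ⟨g, hg1, hg2⟩ := key p
    have h2 : g = f := by
      have h3 : (fun l => g l - f l) = 0 := by
        apply ind_at hA hB hT (x := Pi.single 0 1) (by
          intro h
          have := congrFun h 0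
          simp at this)
        have h4 := (hg1 (Pi.single 0 1)).symm.trans (hf (Pi.single 0 1))
        rw [← sub_eq_zero, ← Finset.sum_sub_distrib] at h4
        rw [← h4]
        exact Finset.sum_congr rfl fun l _ => sub_smul _ _ _
      funext l
      exact sub_eq_zero.1 (congrFun h3 l)
    rw [hg2, h2, Matrix.sum_mulVec]
    exact Finset.sum_congr rfl fun l _ => (Matrix.smul_mulVec _ _ _).symm
  exact Matrix.mulVec_injective (funext h1)

end main

end Pool.Agent.Helper23.FG22
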