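import Mathlib

/-! Linear algebra over function fields for FG-22 (lemma (E1) of helper35). -/

set_option autoImplicit false

namespace Pool.Agent.Helper23.FG22

open MvPolynomial
open scoped BigOperators

/-- polynomials -/
abbrev Sn (n : ℕ) : Type := MvPolynomial (Fin n) ℂ

/-- rational functions -/
abbrev Kn (n : ℕ) : Type := FractionRing (MvPolynomial (Fin n) ℂ)

/-- the gradient -/
noncomputable def gr {n : ℕ} (f : Sn n) : Fin n → Kn n :=
  fun i => algebraMap (Sn n) (Kn n) (pderiv i f)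

/-- duality between derivations and gradients -/
theorem span_of_der {n m : ℕ} (y : Fin m → Sn n) (a : Fin 2 → Sn n)
    (h : ∀ D : Derivation ℂ (Sn n) (Sn n), (∀ i, D (a i) = 0) → ∀ j, D (y j) = 0) (j : Fin m) :
    gr (y j) ∈ Submodule.span (Kn n) (Set.range fun k => gr (a k)) := by
  by_contra hcon
  obtain ⟨f, hf1, hf2⟩ := Submodule.exists_le_ker_of_notMem hcon
  have hfs : ∀ x : Fin n → Kn n, f x = ∑ i, x i * f (fun j => if i = j then 1 else 0) := by
    intro x
    rw [LinearMap.pi_apply_eq_sum_univ f x]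
    rfl
  obtain ⟨b, hb⟩ := IsLocalization.exist_integer_multiples_of_finite (nonZeroDivisors (Sn n))
    (fun i : Fin n => f (fun j => if i = j then 1 else 0))
  choose s hs using hb
  have hs' : ∀ i, algebraMap (Sn n) (Kn n) (s i) =
      algebraMap (Sn n) (Kn n) b * f (fun j => if i = j then 1 else 0) := by
    intro i
    rw [hs i]
    exact Algebra.smul_def _ _
  let D : Derivation ℂ (Sn n) (Sn n) := ∑ i, s i • pderiv i
  have hD : ∀ x : Sn n, D x = ∑ i, s i * pderiv i x := by
    intro x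
    show Derivation.coeFnAddMonoidHom (∑ i, s i • (pderiv i : Derivation ℂ (Sn n) (Sn n))) x = _
    rw [map_sum, Finset.sum_apply]
    rfl
  have hDf : ∀ x : Sn n, algebraMap (Sn n) (Kn n) (D x) = algebraMap (Sn n) (Kn n) b *
      f (gr x) := by
    intro x
    rw [hD, map_sum, hfs, Finset.mul_sum]
    refine Finset.sum_congr rfl fun i _ => ?_
    rw [map_mul, hs']
    unfold gr
    ring
  have hb0 : algebraMap (Sn n) (Kn n) b ≠ 0 :=
    IsFractionRing.to_map_ne_zero_of_mem_nonZeroDivisors b.2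
  have h1 : ∀ k, D (a k) = 0 := by
    intro k
    apply IsFractionRing.injective (Sn n) (Kn n)
    rw [hDf, map_zero]
    have h2 : f (gr (a k)) = 0 := hf2 (Submodule.subset_span ⟨k, rfl⟩)
    rw [h2, mul_zero]
  have h3 := hDf (y j)
  rw [h D h1 j, map_zero] at h3
  rcases mul_eq_zero.1 h3.symm with h4 | h4
  · exact hb0 h4
  · exact hf1 h4

theorem prop_of_two {K : Type} [Field K] {n : ℕ} (p : Fin 2 → Fin n → K)
    (g : (Fin n → K) →ₗ[K] K) {w y u : Fin n → K} (hw : w ∈ Submodule.span K (Set.range p))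
    (hy : y ∈ Submodule.span K (Set.range p)) (hu : u ∈ Submodule.span K (Set.range p))
    (hgw : g w ≠ 0) (hgy : g y = 0) (hgu : g u = 0) (hy0 : y ≠ 0) : ∃ c : K, u = c • y := by
  let Ω := Submodule.span K (Set.range p)
  have h1 : Module.finrank K Ω ≤ 2 := by
    have := finrank_range_le_card (R := K) p
    simpa [Set.finrank] using this
  have h2 : Ω ⊓ LinearMap.ker g < Ω := by
    refine lt_of_le_of_ne inf_le_left ?_
    intro h
    have h3 : w ∈ Ω ⊓ LinearMap.ker g := by
      rw [h]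
      exact hw
    exact hgw h3.2
  have h3 := Submodule.finrank_lt_finrank_of_lt h2
  have h4 : Module.finrank K (Ω ⊓ LinearMap.ker g : Submodule K (Fin n → K)) ≤ 1 := by omega
  rw [finrank_le_one_iff] at h4
  obtain ⟨v, hv⟩ := h4
  obtain ⟨c1, h5⟩ := hv ⟨y, hy, hgy⟩
  obtain ⟨c2, h6⟩ := hv ⟨u, hu, hgu⟩
  have h5' : c1 • (v : Fin n → K) = y := congrArg Subtype.val h5
  have h6' : c2 • (v : Fin n → K) = u := congrArg Subtype.val h6
  have hc1 : c1 ≠ 0 := by
    intro h
    rw [h, zero_smul] at h5'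
    exact hy0 h5'.symm
  refine ⟨c2 * c1⁻¹, ?_⟩
  rw [← h5', ← h6', smul_smul, mul_assoc, inv_mul_cancel₀ hc1, mul_one]

theorem const_of_eig {K : Type} [Field K] [Algebra ℂ K] {n : ℕ} (A : Matrix (Fin n) (Fin n) ℂ)
    {y : Fin n → K} (hy0 : y ≠ 0) {c : K}
    (h : ∀ i, ∑ j, algebraMap ℂ K (A i j) * y j = c * y i) : ∃ c0 : ℂ, c = algebraMap ℂ K c0 := by
  have h1 : IsIntegral ℂ c := by
    refine ⟨A.charpoly, A.charpoly_monic, ?_⟩
    rw [Polynomial.eval₂_eq_eval_map, ← Matrix.charpoly_map]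
    have h2 : Module.End.HasEigenvalue (Matrix.toLin' (A.map (algebraMap ℂ K))) c := by
      refine Module.End.hasEigenvalue_of_hasEigenvector (x := y)
        ⟨Module.End.mem_eigenspace_iff.2 ?_, hy0⟩
      funext i
      rw [Matrix.toLin'_apply]
      exact h i
    rw [Module.End.hasEigenvalue_iff_isRoot_charpoly] at h2
    rw [Matrix.charpoly_toLin'] at h2
    exact h2
  obtain ⟨c0, hc0⟩ := h1.mem_range_algebraMap_of_minpoly_splits (K := ℂ) (IsAlgClosed.splits _)
  exact ⟨c0, hc0.symm⟩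

end Pool.Agent.Helper23.FG22
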