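import Pool.Agent.Helper23.FG22.Alg
import Pool.Agent.Helper23.FG22.Fld
import Pool.Agent.Helper23.FG22.Brk

/-! FG-22 (lemma (E1) of helper35): the point `x_0(z)` as a polynomial in `z`. -/

set_option autoImplicit false

namespace Pool.Agent.Helper23.FG22

open MvPolynomial
open scoped BigOperators
open Pool.Agent.Helper71.FL
open Pool.Agent.Helper1.FG

section
variable (A : Fin 3 → Matrix (Fin 5) (Fin 5) ℂ)

/-- the coefficients of `z A_l` -/
noncomputable def ra (l : Fin 3) (i : Fin 5) : MvPolynomial (Fin 5) ℂ := lf (fun m => A l m i)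

/-- the point `x_0(z)` -/
noncomputable def yy (i : Fin 5) : MvPolynomial (Fin 5) ℂ :=
  alp (k := 3) (ra A) (Pi.single i 1) (fun j => X j)

theorem sum_yy (u : Fin 5 → MvPolynomial (Fin 5) ℂ) :
    alp (k := 3) (ra A) u (fun j => X j) = ∑ i, u i * yy A i := alp_std (k := 3) (ra A) u _

theorem X_yy : ∑ i, X i * yy A i = 0 := by
  rw [← sum_yy]
  exact alp_self (k := 3) (ra A) _

theorem ra_yy (l : Fin 3) : ∑ i, ra A l i * yy A i = 0 := by
  rw [← sum_yy]
  exact alp_r (k := 3) (ra A) l _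

theorem yy_hom (i : Fin 5) : (yy A i).IsHomogeneous 4 := by
  unfold yy
  rw [alp_swap, alp_std]
  refine (IsHomogeneous.sum _ _ _ fun j _ => ?_).neg
  have h1 := mins_hom (k := 3) (fun _ => 1) (fun _ => 0) (ra A) (fun l i => lf_hom _) (j, i)
  have h2 := (isHomogeneous_X ℂ j).mul h1
  have h3 : 1 + (∑ i : Fin (3 + 2), 1 + ∑ l : Fin 3, 0 - 1 - 1) = 4 := by simp
  rw [h3] at h2
  exact h2

theorem eval_yy (z : Fin 5 → ℂ) (i : Fin 5) : eval z (yy A i) =
    alp (k := 3) (fun l i => ∑ m, A l m i * z m) (Pi.single i 1) z := by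
  unfold yy
  have h1 := alp_map (k := 3) (ra A) (eval z) (Pi.single i 1) (fun j => X j)
  rw [← h1]
  have h2 := single_map' (eval z) (m := 5) i
  have h3 : (fun l i => eval z (ra A l i)) = fun l i => ∑ m, A l m i * z m := by
    funext l i
    exact eval_lf _ _
  have h4 : (fun i : Fin 5 => eval z (X i)) = z := by
    funext i
    exact eval_X i
  rw [h3]
  show alp (k := 3) _ (fun i_1 : Fin 5 => eval z ((Pi.single i 1 : Fin 5 → _) i_1)) _ = _
  rw [h2]
  show alp (k := 3) _ _ (fun i : Fin 5 => eval z (X i)) = _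
  rw [h4]

theorem yy_eq (j : Fin 5) : yy A j = - ∑ i, X i * pderiv j (yy A i) := by
  have h1 := congrArg (pderiv j) (X_yy A)
  rw [map_sum, map_zero] at h1
  have h2 : ∀ i, pderiv j (X i * yy A i) = pderiv j (X i) * yy A i + X i * pderiv j (yy A i) :=
    fun i => pderiv_mul
  rw [Finset.sum_congr rfl fun i _ => h2 i, Finset.sum_add_distrib, Finset.sum_eq_single j] at h1
  · rw [pderiv_X_self, one_mul] at h1
    exact eq_neg_of_add_eq_zero_left h1
  · intro i _ hi
    rw [pderiv_X_of_ne hi, zero_mul]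
  · intro h
    exact absurd (Finset.mem_univ _) h

theorem A_yy (l : Fin 3) (j : Fin 5) :
    ∑ i, C (A l j i) * yy A i = - ∑ i, ra A l i * pderiv j (yy A i) := by
  have h1 := congrArg (pderiv j) (ra_yy A l)
  rw [map_sum, map_zero] at h1
  have h2 : ∀ i, pderiv j (ra A l i * yy A i) = C (A l j i) * yy A i +
      ra A l i * pderiv j (yy A i) := by
    intro i
    rw [pderiv_mul]
    unfold ra
    rw [pderiv_lf]
  rw [Finset.sum_congr rfl fun i _ => h2 i, Finset.sum_add_distrib] at h1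
  exact eq_neg_of_add_eq_zero_left h1

end

section
variable {v : Fin 3 → Fin 5 → MvPolynomial (Fin 5) ℂ} {A : Fin 3 → Matrix (Fin 5) (Fin 5) ℂ}

/-- the point is a common eigenvector -/
theorem eig (h0 : ∀ l i, (v l i).IsHomogeneous 1) (hF : ∀ p, aeval (yy A) (mins (k := 3) v p) = 0)
    {l : Fin 2 → MvPolynomial (Fin 5) ℂ} (hl : ∀ i, (l i).IsHomogeneous 1)
    (hT : Triv (Sum.elim (mins (k := 3) v) l)) (hy : ∃ i, yy A i ≠ 0) :
    ∃ c : Fin 3 → ℂ, ∀ l j, ∑ i, C (A l j i) * yy A i = C (c l) * yy A j := by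
  have hF0 : ∀ p, (mins (k := 3) v p).IsHomogeneous
      (∑ i : Fin (3 + 2), 1 + ∑ l : Fin 3, 0 - 1 - 1) := fun p =>
    mins_hom (k := 3) (fun _ => 1) (fun _ => 0) v h0 p
  have h1 : ∀ D : Derivation ℂ (Sn 5) (Sn 5), (∀ i, D (aeval (yy A) (l i)) = 0) →
      ∀ j, D (yy A j) = 0 := fun D hD j =>
    der_zero (mins (k := 3) v) _ hF0 l hl hT (yy A) hF D hD j
  have h2 := span_of_der (yy A) (fun i => aeval (yy A) (l i)) h1
  set Ω := Submodule.span (Kn 5) (Set.range fun k => gr (aeval (yy A) (l k))) with hΩ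
  let ι : Sn 5 →+* Kn 5 := algebraMap (Sn 5) (Kn 5)
  have hι : Function.Injective ι := IsFractionRing.injective _ _
  let g : (Fin 5 → Kn 5) →ₗ[Kn 5] Kn 5 := ∑ j, ι (X j) • LinearMap.proj j
  have hg : ∀ x, g x = ∑ j, ι (X j) * x j := by
    intro x
    simp only [g, LinearMap.sum_apply, LinearMap.smul_apply, LinearMap.proj_apply, smul_eq_mul]
  have hcomb : ∀ u : Fin 5 → Sn 5, (fun j => ι (- ∑ i, u i * pderiv j (yy A i))) ∈ Ω := by
    intro u
    have h3 : (fun j => ι (- ∑ i, u i * pderiv j (yy A i))) =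
        - ∑ i, ι (u i) • gr (yy A i) := by
      funext j
      rw [Pi.neg_apply, Finset.sum_apply, map_neg, map_sum]
      congr 1
      refine Finset.sum_congr rfl fun i _ => ?_
      rw [map_mul]
      rfl
    rw [h3]
    exact Ω.neg_mem (Ω.sum_mem fun i _ => Ω.smul_mem _ (h2 i))
  have hyΩ : (fun j => ι (yy A j)) ∈ Ω := by
    have := hcomb (fun i => X i)
    have h3 : (fun j => ι (yy A j)) = (fun j => ι (- ∑ i, X i * pderiv j (yy A i))) := by
      funext j
      rw [← yy_eq]
    rw [h3]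
    exact this
  obtain ⟨i0, hi0⟩ := hy
  have hgw : g (gr (yy A i0)) ≠ 0 := by
    rw [hg]
    have h3 : ∑ j, ι (X j) * gr (yy A i0) j = ι (∑ j, X j * pderiv j (yy A i0)) := by
      rw [map_sum]
      refine Finset.sum_congr rfl fun i _ => ?_
      rw [map_mul]
      rfl
    rw [h3, (yy_hom A i0).sum_X_mul_pderiv]
    intro h4
    rw [← map_zero ι] at h4
    have h5 := hι h4
    rw [nsmul_eq_mul] at h5
    rcases mul_eq_zero.1 h5 with h6 | h6
    · exact absurd h6 (Nat.cast_ne_zero.2 (by norm_num))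
    · exact hi0 h6
  have hgy : g (fun j => ι (yy A j)) = 0 := by
    rw [hg]
    have h3 : ∑ j, ι (X j) * ι (yy A j) = ι (∑ j, X j * yy A j) := by
      rw [map_sum]
      exact Finset.sum_congr rfl fun i _ => (map_mul _ _ _).symm
    rw [h3, X_yy, map_zero]
  have hy0 : (fun j => ι (yy A j)) ≠ 0 := by
    intro h3
    apply hi0
    apply hι
    rw [map_zero]
    exact congrFun h3 i0
  have key : ∀ l : Fin 3, ∃ c : ℂ, ∀ j, ∑ i, C (A l j i) * yy A i = C c * yy A j := by
    intro l
    have huΩ : (fun j => ι (∑ i, C (A l j i) * yy A i)) ∈ Ω := by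
      have := hcomb (ra A l)
      have h3 : (fun j => ι (∑ i, C (A l j i) * yy A i)) =
          (fun j => ι (- ∑ i, ra A l i * pderiv j (yy A i))) := by
        funext j
        rw [← A_yy]
      rw [h3]
      exact this
    have hgu : g (fun j => ι (∑ i, C (A l j i) * yy A i)) = 0 := by
      rw [hg]
      have h3 : ∑ j, ι (X j) * ι (∑ i, C (A l j i) * yy A i) =
          ι (∑ j, X j * ∑ i, C (A l j i) * yy A i) := by
        rw [map_sum]
        exact Finset.sum_congr rfl fun i _ => (map_mul _ _ _).symm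
      have h4 : ∑ j, X j * ∑ i, C (A l j i) * yy A i = ∑ i, ra A l i * yy A i := by
        simp only [Finset.mul_sum]
        rw [Finset.sum_comm]
        refine Finset.sum_congr rfl fun i _ => ?_
        unfold ra lf
        rw [Finset.sum_mul]
        exact Finset.sum_congr rfl fun j _ => by ring
      rw [h3, h4, ra_yy, map_zero]
    obtain ⟨c, hc⟩ := prop_of_two _ g (h2 i0) hyΩ huΩ hgw hgy hgu hy0
    obtain ⟨c0, hc0⟩ := const_of_eig (A l) hy0 (c := c) (by
      intro i
      have h3 := congrFun hc i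
      rw [Pi.smul_apply, smul_eq_mul] at h3
      rw [← h3, map_sum]
      refine Finset.sum_congr rfl fun j _ => ?_
      rw [map_mul]
      rfl)
    refine ⟨c0, fun j => ?_⟩
    apply hι
    rw [map_mul]
    have h3 := congrFun hc j
    rw [Pi.smul_apply, smul_eq_mul, hc0] at h3
    exact h3
  choose c hc using key
  exact ⟨c, hc⟩

end

end Pool.Agent.Helper23.FG22
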