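import Pool.Agent.Helper23.FG22.LinAlg
import Pool.Agent.Helper23.FG22.Pt

/-! FG-22 (lemma (E1) of helper35): conclusion. -/

set_option autoImplicit false

namespace Pool.Agent.Helper23.FG22

open MvPolynomial Module
open scoped BigOperators
open Pool.Agent.Helper71.FL
open Pool.Agent.Helper1.FG

/-- linear forms, as a linear map -/
noncomputable def lfL (n : ℕ) : (Fin n → ℂ) →ₗ[ℂ] MvPolynomial (Fin n) ℂ where
  toFun := lf
  map_add' := by
    intro u w
    unfold lf
    rw [← Finset.sum_add_distrib]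
    refine Finset.sum_congr rfl fun i _ => ?_
    rw [Pi.add_apply, C_add, add_mul]
  map_smul' := by
    intro c u
    unfold lf
    rw [RingHom.id_apply, Finset.smul_sum]
    refine Finset.sum_congr rfl fun i _ => ?_
    rw [Pi.smul_apply, smul_eq_mul, C_mul, smul_eq_C_mul, mul_assoc]

theorem lfL_ker (n : ℕ) : LinearMap.ker (lfL n) = ⊥ := by
  rw [LinearMap.ker_eq_bot']
  intro u hu
  funext j
  have h1 := congrArg (fun q => eval 0 (pderiv j q)) hu
  have h2 : eval 0 (pderiv j (lf u)) = eval 0 (pderiv j (0 : MvPolynomial (Fin n) ℂ)) := h1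
  rw [pderiv_lf, eval_C, map_zero, map_zero] at h2
  exact h2

section
variable {v : Fin 3 → Fin 5 → MvPolynomial (Fin 5) ℂ} {A : Fin 3 → Matrix (Fin 5) (Fin 5) ℂ}
variable {P : Fin 5 → MvPolynomial (Fin 3) ℂ} {B : Matrix (Fin 5) (Fin 3) ℂ}

/-- the vectors `z A_l` -/
def za (A : Fin 3 → Matrix (Fin 5) (Fin 5) ℂ) (z : Fin 5 → ℂ) (l : Fin 3) (i : Fin 5) : ℂ :=
  ∑ m, A l m i * z m

theorem zv_eq (hA : ∀ l i, v l i = lf (A l i)) (z : Fin 5 → ℂ) (l : Fin 3) :
    ∑ i, C (z i) * v l i = lf (za A z l) := by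
  simp only [hA]
  unfold lf za
  simp only [Finset.mul_sum]
  rw [Finset.sum_comm]
  refine Finset.sum_congr rfl fun j _ => ?_
  rw [map_sum, Finset.sum_mul]
  refine Finset.sum_congr rfl fun i _ => ?_
  rw [C_mul]
  ring

theorem fam_eq (hA : ∀ l i, v l i = lf (A l i)) (z : Fin 5 → ℂ) :
    (Fin.cons (∑ i, C (z i) * X i) (fun l => ∑ i, C (z i) * v l i) :
      Fin 4 → MvPolynomial (Fin 5) ℂ) = lfL 5 ∘ (Fin.cons z (za A z) : Fin 4 → Fin 5 → ℂ) := by
  funext j
  refine Fin.cases ?_ (fun l => ?_) j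
  · rfl
  · show ∑ i, C (z i) * v l i = lf (za A z l)
    exact zv_eq hA z l

theorem li_iff (hA : ∀ l i, v l i = lf (A l i)) (z : Fin 5 → ℂ) :
    LinearIndependent ℂ (Fin.cons (∑ i, C (z i) * X i) (fun l => ∑ i, C (z i) * v l i) :
      Fin 4 → MvPolynomial (Fin 5) ℂ) ↔
    LinearIndependent ℂ (Fin.cons z (za A z) : Fin 4 → Fin 5 → ℂ) := by
  rw [fam_eq hA]
  exact LinearMap.linearIndependent_iff _ (lfL_ker 5)

theorem li_of_alp {z : Fin 5 → ℂ} {r : Fin 3 → Fin 5 → ℂ} {i : Fin 5}
    (h : alp (k := 3) r (Pi.single i 1) z ≠ 0) :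
    LinearIndependent ℂ (Fin.cons z r : Fin 4 → Fin 5 → ℂ) := by
  have h1 := Matrix.linearIndependent_rows_of_det_ne_zero h
  exact h1.comp Fin.succ (Fin.succ_injective _)

theorem alp_of_li {z : Fin 5 → ℂ} {r : Fin 3 → Fin 5 → ℂ}
    (h : LinearIndependent ℂ (Fin.cons z r : Fin 4 → Fin 5 → ℂ)) :
    ∃ i, alp (k := 3) r (Pi.single i 1) z ≠ 0 := by
  obtain ⟨u, hu⟩ : ∃ u : Fin 5 → ℂ, u ∉ Submodule.span ℂ
      (Set.range (Fin.cons z r : Fin 4 → Fin 5 → ℂ)) := by
    by_contra hcon
    push Not at hcon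
    have h1 : Submodule.span ℂ (Set.range (Fin.cons z r : Fin 4 → Fin 5 → ℂ)) = ⊤ :=
      Submodule.eq_top_iff'.2 hcon
    have h2 := finrank_span_eq_card h
    rw [h1, finrank_top] at h2
    simp at h2
  have h1 : LinearIndependent ℂ (Fin.cons u (Fin.cons z r) : Fin 5 → Fin 5 → ℂ) :=
    linearIndependent_finCons.2 ⟨h, hu⟩
  have h2 : IsUnit (Matrix.of (Fin.cons u (Fin.cons z r) : Fin 5 → Fin 5 → ℂ)) :=
    Matrix.linearIndependent_rows_iff_isUnit.1 h1
  have h3 : alp (k := 3) r u z ≠ 0 := ((Matrix.isUnit_iff_isUnit_det _).1 h2).ne_zero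
  by_contra hcon
  push Not at hcon
  apply h3
  rw [alp_std]
  exact Finset.sum_eq_zero fun j _ => by rw [hcon j, mul_zero]

/-- the vanishing of the minors at `x_0(z)` -/
theorem van (h0 : ∀ l i, (v l i).IsHomogeneous 1) (hA : ∀ l i, v l i = lf (A l i))
    (hneg : ∀ z : Fin 5 → ℂ, LinearIndependent ℂ
      (Fin.cons (∑ i, C (z i) * X i) (fun l => ∑ i, C (z i) * v l i) :
        Fin 4 → MvPolynomial (Fin 5) ℂ) →
      ¬ Triv (Sum.elim (Fin.cons (∑ i, C (z i) * X i) (fun l => ∑ i, C (z i) * v l i) :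
        Fin 4 → MvPolynomial (Fin 5) ℂ) (mins (k := 3) v))) (p : Fin (3 + 2) × Fin (3 + 2)) :
    aeval (yy A) (mins (k := 3) v p) = 0 := by
  have hhom := mins_hom (k := 3) (fun _ => 1) (fun _ => 0) v h0 p
  have h3 : (∑ i : Fin (3 + 2), 1 + ∑ l : Fin 3, 0 - 1 - 1) = 3 := by simp
  rw [h3] at hhom
  apply MvPolynomial.funext
  intro z
  rw [eval_aeval', map_zero]
  have hyz : (fun j => eval z (yy A j)) = fun j => alp (k := 3) (za A z) (Pi.single j 1) z := by
    funext j
    exact eval_yy A z j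
  rw [hyz]
  by_cases hz : ∃ i, alp (k := 3) (za A z) (Pi.single i 1) z ≠ 0
  · obtain ⟨i, hi⟩ := hz
    have h4 := hneg z ((li_iff hA z).2 (li_of_alp hi))
    unfold Triv at h4
    push Not at h4
    obtain ⟨x, hx, hx0⟩ := h4
    have hzx : ∑ j, x j * z j = 0 := by
      have h5 := hx (Sum.inl 0)
      have h6 : eval x (lf z) = 0 := h5
      rw [eval_lf] at h6
      rw [← h6]
      exact Finset.sum_congr rfl fun j _ => mul_comm _ _
    have hax : ∀ l, ∑ j, x j * za A z l j = 0 := by
      intro l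
      have h5 := hx (Sum.inl l.succ)
      have h6 : eval x (∑ i, C (z i) * v l i) = 0 := h5
      rw [zv_eq hA, eval_lf] at h6
      rw [← h6]
      exact Finset.sum_congr rfl fun j _ => mul_comm _ _
    have hmx : eval x (mins (k := 3) v p) = 0 := hx (Sum.inr p)
    have hprop : ∀ j, x j * alp (k := 3) (za A z) (Pi.single i 1) z =
        x i * alp (k := 3) (za A z) (Pi.single j 1) z := by
      intro j
      have h5 := cram3 (k := 3) (za A z) x hax (Pi.single j 1) (Pi.single i 1) z
      have h6 : ∀ s : Fin 5, ∑ m, x m * (Pi.single s 1 : Fin 5 → ℂ) m = x s := by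
        intro s
        rw [Finset.sum_eq_single s]
        · rw [Pi.single_eq_same, mul_one]
        · intro m _ hm
          rw [Pi.single_eq_of_ne hm, mul_zero]
        · intro h
          exact absurd (Finset.mem_univ _) h
      have h5' : alp (k := 3) (za A z) (Pi.single i 1) z * x j -
          alp (k := 3) (za A z) (Pi.single j 1) z * x i +
          alp (k := 3) (za A z) (Pi.single j 1) (Pi.single i 1) * 0 = 0 := by
        calc _ = alp (k := 3) (za A z) (Pi.single i 1) z *
              (∑ m, x m * (Pi.single j 1 : Fin 5 → ℂ) m) -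
              alp (k := 3) (za A z) (Pi.single j 1) z *
              (∑ m, x m * (Pi.single i 1 : Fin 5 → ℂ) m) +
              alp (k := 3) (za A z) (Pi.single j 1) (Pi.single i 1) * (∑ m, x m * z m) := by
              rw [h6 j, h6 i, hzx]
          _ = 0 := h5
      linear_combination h5'
    have hxi : x i ≠ 0 := by
      intro h5
      apply hx0
      funext j
      have h6 := hprop j
      rw [h5, zero_mul] at h6
      exact (mul_eq_zero.1 h6).resolve_right hi
    have h5 : (fun j => alp (k := 3) (za A z) (Pi.single j 1) z) =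
        (alp (k := 3) (za A z) (Pi.single i 1) z * (x i)⁻¹) • x := by
      funext j
      rw [Pi.smul_apply, smul_eq_mul]
      have h6 := hprop j
      field_simp
      linear_combination -h6
    rw [h5, eval_smul_hom hhom, hmx, mul_zero]
  · push Not at hz
    have h4 : (fun j => alp (k := 3) (za A z) (Pi.single j 1) z) = (0 : ℂ) • (0 : Fin 5 → ℂ) := by
      funext j
      rw [hz j]
      simp
    rw [h4, eval_smul_hom hhom]
    simp

/-- two linear forms cutting out a complement of the cone -/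
theorem forms (hA : ∀ l i, v l i = lf (A l i)) (hB : ∀ i, P i = lf (B i))
    (hT : Triv (mins (k := 3) (fun l i => aeval P (v l i)))) :
    ∃ l : Fin 2 → MvPolynomial (Fin 5) ℂ, (∀ i, (l i).IsHomogeneous 1) ∧
      Triv (Sum.elim (mins (k := 3) v) l) := by
  have hinj : LinearMap.ker B.mulVecLin = ⊥ := by
    rw [LinearMap.ker_eq_bot']
    intro x hx
    by_contra hx0
    have h1 := ind_at hA hB hT hx0 (c := Pi.single 0 1) (by
      refine Finset.sum_eq_zero fun l _ => ?_
      have h2 : B.mulVec x = 0 := hx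
      rw [h2, Matrix.mulVec_zero, smul_zero])
    have h2 := congrFun h1 0
    rw [Pi.single_eq_same] at h2
    exact one_ne_zero h2
  let L := LinearMap.range B.mulVecLin
  have hL : finrank ℂ L = 3 := by
    have h1 := B.mulVecLin.finrank_range_add_finrank_ker
    rw [hinj, finrank_bot] at h1
    simpa using h1
  have hQ : finrank ℂ ((Fin 5 → ℂ) ⧸ L) = finrank ℂ (Fin 2 → ℂ) := by
    have h1 := L.finrank_quotient_add_finrank
    rw [hL] at h1
    simp at h1 ⊢
    omega
  let e := LinearEquiv.ofFinrankEq _ _ hQ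
  let π : (Fin 5 → ℂ) →ₗ[ℂ] (Fin 2 → ℂ) := e.toLinearMap.comp L.mkQ
  refine ⟨fun i => lf (fun j => π (fun m => if j = m then 1 else 0) i), fun i => lf_hom _, ?_⟩
  intro x hx
  have h1 : π x = 0 := by
    rw [LinearMap.pi_apply_eq_sum_univ π x]
    funext i
    have h2 := hx (Sum.inr i)
    rw [Sum.elim_inr, eval_lf] at h2
    rw [Finset.sum_apply]
    exact Eq.trans (Finset.sum_congr rfl fun j _ => mul_comm _ _) h2
  have h2 : x ∈ L := by
    have h3 : e (L.mkQ x) = 0 := h1
    rw [LinearEquiv.map_eq_zero_iff] at h3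
    exact (Submodule.Quotient.mk_eq_zero L).1 h3
  obtain ⟨y, hy⟩ := h2
  have hy' : B.mulVec y = x := hy
  have h3 : y = 0 := by
    apply hT
    intro q
    refine (mins_map' (k := 3) (eval y) (fun l i => aeval P (v l i)) q).symm.trans ?_
    have h4 := hx (Sum.inl q)
    rw [Sum.elim_inl] at h4
    rw [← h4]
    refine Eq.trans ?_ (mins_map' (k := 3) (eval x) v q)
    congr 1
    funext l i
    rw [eval_aeval']
    congr 2
    funext j
    rw [hB, eval_lf, ← hy']
    rfl
  rw [← hy', h3, Matrix.mulVec_zero]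

/-- (E1) -/
theorem main (h0 : ∀ l i, (v l i).IsHomogeneous 1) (hcl : ClV (k := 3) v)
    (hP : ∀ i, (P i).IsHomogeneous 1)
    (hT : Triv (mins (k := 3) (fun l i => aeval P (v l i))))
    (hind : ∃ z : Fin 5 → ℂ, LinearIndependent ℂ
      (Fin.cons (∑ i, C (z i) * X i) (fun l => ∑ i, C (z i) * v l i) :
        Fin 4 → MvPolynomial (Fin 5) ℂ)) :
    ∃ z : Fin 5 → ℂ, LinearIndependent ℂ
      (Fin.cons (∑ i, C (z i) * X i) (fun l => ∑ i, C (z i) * v l i) :
        Fin 4 → MvPolynomial (Fin 5) ℂ) ∧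
      Triv (Sum.elim (Fin.cons (∑ i, C (z i) * X i) (fun l => ∑ i, C (z i) * v l i) :
        Fin 4 → MvPolynomial (Fin 5) ℂ) (mins (k := 3) v)) := by
  by_contra hcon
  push Not at hcon
  let A : Fin 3 → Matrix (Fin 5) (Fin 5) ℂ := fun l i j => coeff 0 (pderiv j (v l i))
  let B : Matrix (Fin 5) (Fin 3) ℂ := fun i j => coeff 0 (pderiv j (P i))
  have hA : ∀ l i, v l i = lf (A l i) := fun l i => eq_lf (h0 l i)
  have hB : ∀ i, P i = lf (B i) := fun i => eq_lf (hP i)
  have hF := van h0 hA hcon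
  obtain ⟨z0, hz0⟩ := hind
  have hz0' := (li_iff hA z0).1 hz0
  obtain ⟨i0, hi0⟩ := alp_of_li hz0'
  have hy : yy A i0 ≠ 0 := by
    intro h
    apply hi0
    have h1 := eval_yy A z0 i0
    rw [h, map_zero] at h1
    exact h1.symm
  obtain ⟨l, hl, hlT⟩ := forms hA hB hT
  obtain ⟨c, hc⟩ := eig h0 hF hl hlT ⟨i0, hy⟩
  -- the eigenspace
  let W : Submodule ℂ (Fin 5 → ℂ) :=
    ⨅ l, LinearMap.ker ((A l).mulVecLin - c l • LinearMap.id)
  have hW : ∀ x, x ∈ W ↔ ∀ l, (A l).mulVec x = c l • x := by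
    intro x
    simp only [W, Submodule.mem_iInf, LinearMap.mem_ker, LinearMap.sub_apply,
      LinearMap.smul_apply, LinearMap.id_apply, Matrix.mulVecLin_apply, sub_eq_zero]
  have hyW : ∀ z, (fun j => eval z (yy A j)) ∈ W := by
    intro z
    rw [hW]
    intro l
    funext j
    have h1 := congrArg (eval z) (hc l j)
    rw [map_sum, map_mul, eval_C] at h1
    rw [Pi.smul_apply, smul_eq_mul, ← h1]
    show ∑ i, A l j i * eval z (yy A i) = _
    refine Finset.sum_congr rfl fun i _ => ?_
    rw [map_mul, eval_C]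
  have hW2 : 2 ≤ finrank ℂ W := by
    by_contra hlt
    have h1 : finrank ℂ W ≤ 1 := by omega
    obtain ⟨⟨w, hw⟩, hwW⟩ := finrank_le_one_iff.1 h1
    have hX : ∀ z : Fin 5 → ℂ, ∑ i, z i * eval z (yy A i) = 0 := by
      intro z
      have h2 := congrArg (eval z) (X_yy A)
      rw [map_sum, map_zero] at h2
      rw [← h2]
      refine Finset.sum_congr rfl fun i _ => ?_
      rw [map_mul, eval_X]
    have hmul : ∀ z, ∃ b : ℂ, ∀ i, eval z (yy A i) = b * w i := by
      intro z
      obtain ⟨b, hb⟩ := hwW ⟨_, hyW z⟩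
      refine ⟨b, fun i => ?_⟩
      have h2 := congrArg Subtype.val hb
      exact (congrFun h2 i).symm
    have h2 : yy A i0 * lf w = 0 := by
      apply MvPolynomial.funext
      intro z
      rw [map_mul, map_zero, eval_lf]
      obtain ⟨b, hb⟩ := hmul z
      have h3 := hX z
      simp only [hb] at h3
      rw [hb i0]
      have h4 : b * ∑ i, w i * z i = 0 := by
        rw [Finset.mul_sum, ← h3]
        exact Finset.sum_congr rfl fun i _ => by ring
      linear_combination w i0 * h4
    rcases mul_eq_zero.1 h2 with h3 | h3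
    · exact hy h3
    · have h4 : w = 0 := by
        have h5 : w ∈ LinearMap.ker (lfL 5) := h3
        rwa [lfL_ker, Submodule.mem_bot] at h5
      obtain ⟨b, hb⟩ := hmul z0
      apply hi0
      have h5 := eval_yy A z0 i0
      rw [hb i0, h4, Pi.zero_apply, mul_zero] at h5
      exact h5.symm
  -- the Lie algebra
  let G : Submodule ℂ (End ℂ (Fin 5 → ℂ)) :=
    Submodule.span ℂ (Set.range fun l => (A l).mulVecLin)
  have hGm : ∀ X, X ∈ G ↔ ∃ d : Fin 3 → ℂ, ∑ l, d l • (A l).mulVecLin = X := by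
    intro X
    exact Submodule.mem_span_range_iff_exists_fun ℂ
  have hinj : LinearMap.ker B.mulVecLin = ⊥ := by
    rw [LinearMap.ker_eq_bot']
    intro x hx
    by_contra hx0
    have h1 := ind_at hA hB hT hx0 (c := Pi.single 0 1) (by
      refine Finset.sum_eq_zero fun l _ => ?_
      have h2 : B.mulVec x = 0 := hx
      rw [h2, Matrix.mulVec_zero, smul_zero])
    have h2 := congrFun h1 0
    rw [Pi.single_eq_same] at h2
    exact one_ne_zero h2
  have hL : finrank ℂ (LinearMap.range B.mulVecLin) = 3 := by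
    have h1 := B.mulVecLin.finrank_range_add_finrank_ker
    rw [hinj, finrank_bot] at h1
    simpa using h1
  have hsmall : ∀ d : Fin 3 → ℂ, d ≠ 0 →
      finrank ℂ (LinearMap.ker (∑ l, d l • (A l).mulVecLin)) ≤ 2 := by
    intro d hd
    have h1 : Disjoint (LinearMap.ker (∑ l, d l • (A l).mulVecLin))
        (LinearMap.range B.mulVecLin) := by
      rw [Submodule.disjoint_def]
      rintro _ hx ⟨y, rfl⟩
      by_contra hy0
      have hy1 : y ≠ 0 := by
        intro h
        apply hy0
        rw [h, map_zero]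
      apply hd
      apply ind_at hA hB hT hy1
      rw [LinearMap.mem_ker, LinearMap.sum_apply] at hx
      exact hx
    have h2 := Submodule.finrank_add_finrank_le_of_disjoint h1
    rw [hL] at h2
    simp at h2
    omega
  have hWk : ∀ d : Fin 3 → ℂ, ∀ w ∈ W, (∑ l, d l • (A l).mulVecLin) w = (∑ l, d l * c l) • w := by
    intro d w hw
    rw [LinearMap.sum_apply, Finset.sum_smul]
    refine Finset.sum_congr rfl fun l _ => ?_
    rw [LinearMap.smul_apply, Matrix.mulVecLin_apply, (hW w).1 hw l, smul_smul]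
  have hW2' : finrank ℂ W = 2 := by
    refine le_antisymm ?_ hW2
    obtain ⟨d, hd, hdc⟩ : ∃ d : Fin 3 → ℂ, d ≠ 0 ∧ ∑ l, d l * c l = 0 := by
      by_cases h : c 0 = 0
      · refine ⟨Pi.single 0 1, ?_, ?_⟩
        · intro h1
          have := congrFun h1 0
          simp at this
        · rw [Fin.sum_univ_three]
          simp [h]
      · refine ⟨![c 1, - c 0, 0], ?_, ?_⟩
        · intro h1
          have := congrFun h1 1
          simp at this
          exact h this
        · rw [Fin.sum_univ_three]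
          simp
          ring
    refine (Submodule.finrank_mono ?_).trans (hsmall d hd)
    intro w hw
    rw [LinearMap.mem_ker, hWk d w hw, hdc, zero_smul]
  have hAli : LinearIndependent ℂ (fun l => (A l).mulVecLin) := by
    rw [Fintype.linearIndependent_iff]
    intro d hd
    by_contra hne
    push Not at hne
    have hd0 : d ≠ 0 := by
      rintro rfl
      obtain ⟨i, hi⟩ := hne
      exact hi rfl
    have h1 := hsmall d hd0
    rw [hd, LinearMap.ker_zero, finrank_top] at h1
    simp at h1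
  have hG3 : finrank ℂ G = 3 := by
    have := finrank_span_eq_card hAli
    simpa using this
  have hGG : ∀ X ∈ G, ∀ Y ∈ G, X * Y - Y * X ∈ G := by
    intro X hX Y hY
    obtain ⟨d, rfl⟩ := (hGm X).1 hX
    obtain ⟨d', rfl⟩ := (hGm Y).1 hY
    have h1 : (∑ l, d l • (A l).mulVecLin : End ℂ (Fin 5 → ℂ)) *
        (∑ l, d' l • (A l).mulVecLin : End ℂ (Fin 5 → ℂ)) -
        (∑ l, d' l • (A l).mulVecLin : End ℂ (Fin 5 → ℂ)) *
        (∑ l, d l • (A l).mulVecLin : End ℂ (Fin 5 → ℂ)) =
        ∑ a, ∑ b, (d b * d' a) • (A b * A a - A a * A b).mulVecLin := by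
      rw [Finset.sum_mul_sum, Finset.sum_mul_sum, Finset.sum_comm, ← Finset.sum_sub_distrib]
      refine Finset.sum_congr rfl fun a _ => ?_
      rw [← Finset.sum_sub_distrib]
      refine Finset.sum_congr rfl fun b _ => ?_
      rw [smul_mul_smul_comm, smul_mul_smul_comm, mul_comm (d' a) (d b)]
      have h2 : ((A b).mulVecLin * (A a).mulVecLin - (A a).mulVecLin * (A b).mulVecLin :
          End ℂ (Fin 5 → ℂ)) = (A b * A a - A a * A b).mulVecLin := by
        ext x i
        simp
      rw [← h2]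
      exact (smul_sub _ _ _).symm
    rw [h1]
    refine G.sum_mem fun a _ => G.sum_mem fun b _ => G.smul_mem _ ?_
    obtain ⟨f, hf⟩ := bracket hA hB hcl hT a b
    rw [hf, hGm]
    refine ⟨f, ?_⟩
    ext x i
    simp
  refine no_alg (by simp) G hGG hG3 W hW2' ?_ ?_ ?_
  · intro X hX hX0
    obtain ⟨d, rfl⟩ := (hGm X).1 hX
    apply hsmall d
    rintro rfl
    apply hX0
    simp
  · intro X hX
    obtain ⟨d, rfl⟩ := (hGm X).1 hX
    exact ⟨_, hWk d⟩
  · intro s hs hsG
    obtain ⟨d, hd⟩ := (hGm _).1 hsG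
    rw [Fintype.linearIndependent_iff] at hz0'
    have h1 := hz0' (Fin.cons (-s) d) (by
      rw [Fin.sum_univ_succ]
      simp only [Fin.cons_zero, Fin.cons_succ]
      funext i
      rw [Pi.add_apply, Pi.smul_apply, Finset.sum_apply, smul_eq_mul]
      simp only [Pi.smul_apply, smul_eq_mul, za]
      have h2 := congrArg (fun F : End ℂ (Fin 5 → ℂ) => ∑ m, z0 m * F (Pi.single i 1) m) hd
      simp only [LinearMap.sum_apply, LinearMap.smul_apply, Matrix.mulVecLin_apply,
        Matrix.mulVec_single_one, Finset.sum_apply, Pi.smul_apply, smul_eq_mul,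
        Module.End.one_apply] at h2
      have h4 : ∑ m, z0 m * (s * (Pi.single i 1 : Fin 5 → ℂ) m) = z0 i * s := by
        rw [Finset.sum_eq_single i]
        · rw [Pi.single_eq_same, mul_one]
        · intro m _ hm
          rw [Pi.single_eq_of_ne hm]
          ring
        · intro h
          exact absurd (Finset.mem_univ _) h
      have h3 : ∑ l, d l * ∑ m, A l m i * z0 m = ∑ m, z0 m * ∑ l, d l * (A l).col i m := by
        simp only [Finset.mul_sum]
        rw [Finset.sum_comm]
        refine Finset.sum_congr rfl fun m _ => Finset.sum_congr rfl fun l _ => ?_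
        show d l * (A l m i * z0 m) = z0 m * (d l * A l m i)
        ring
      rw [h3, h2, h4, Pi.zero_apply]
      ring) 0
    rw [Fin.cons_zero, neg_eq_zero] at h1
    exact hs h1

end

end Pool.Agent.Helper23.FG22
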