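import Pool.Agent.Helper1.FG.Open

/-! Algebra for FG-22 (lemma (E1) of helper35): a family of points of a cone of dimension two. -/

set_option autoImplicit false

namespace Pool.Agent.Helper23.FG22

open MvPolynomial
open scoped BigOperators
open Pool.Agent.Helper1.FG (Triv)

/-- derivations killing a subalgebra kill the integral elements -/
theorem der_alg {S : Type} [CommRing S] [IsDomain S] [Algebra ℂ S] (A0 : Subalgebra ℂ S)
    (D : Derivation ℂ S S) (hD : ∀ a ∈ A0, D a = 0) (y : S) (hy : IsIntegral A0 y) : D y = 0 := by
  let D' : Derivation A0 S S :=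
    { toFun := D
      map_add' := D.map_add
      map_smul' := by
        intro a x
        show D ((a : S) * x) = (a : S) * D x
        rw [D.leibniz, hD _ a.2, smul_zero, add_zero, smul_eq_mul]
      map_one_eq_zero' := D.map_one_eq_zero
      leibniz' := D.leibniz }
  have hD' : ∀ x, D' x = D x := fun x => rfl
  have : CharZero A0 := charZero_of_injective_algebraMap (algebraMap ℂ A0).injective
  have key : ∀ n : ℕ, ∀ p : Polynomial A0, p.natDegree = n → p ≠ 0 → Polynomial.aeval y p = 0 →
      D y = 0 := by
    intro n
    induction n using Nat.strong_induction_on with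
    | _ n ih =>
      intro p hpn hp0 hp
      have h1 := D'.map_aeval p y
      rw [hp, map_zero, smul_eq_mul, hD'] at h1
      rcases mul_eq_zero.1 h1.symm with h2 | h2
      · by_cases hn : n = 0
        · rw [hn] at hpn
          rw [Polynomial.eq_C_of_natDegree_eq_zero hpn] at hp hp0
          exfalso
          rw [Polynomial.aeval_C] at hp
          apply hp0
          have : p.coeff 0 = 0 := Subtype.ext hp
          rw [this, map_zero]
        · have h3 : Polynomial.derivative p ≠ 0 := by
            intro h4
            apply hn
            rw [← hpn]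
            exact Polynomial.derivative_eq_zero.1 h4
          exact ih _ (by
            rw [← hpn]
            exact Polynomial.natDegree_derivative_lt (by rw [hpn]; exact hn)) _ rfl h3 h2
      · exact h2
  obtain ⟨p, hpm, hp⟩ := hy
  exact key _ p rfl hpm.ne_zero hp

section
variable {n : ℕ} {σ : Type} {κ : Type}

theorem hc_mul_one {a l : MvPolynomial (Fin n) ℂ} (hl : l.IsHomogeneous 1) (d : ℕ) :
    homogeneousComponent (d + 1) (a * l) = homogeneousComponent d a * l := by
  have hsum : a = ∑ i ∈ Finset.range (a.totalDegree + 1), homogeneousComponent i a :=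
    (sum_homogeneousComponent a).symm
  conv_lhs => rw [hsum, Finset.sum_mul, map_sum]
  have h1 : ∀ i ∈ Finset.range (a.totalDegree + 1),
      homogeneousComponent (d + 1) (homogeneousComponent i a * l) =
        if i = d then homogeneousComponent i a * l else 0 := by
    intro i _
    rw [homogeneousComponent_of_mem ((homogeneousComponent_isHomogeneous i a).mul hl)]
    by_cases h : i = d
    · simp [h]
    · rw [if_neg (by omega), if_neg h]
  rw [Finset.sum_congr rfl h1, Finset.sum_ite_eq']
  split_ifs with h
  · rfl
  · rw [Finset.mem_range, not_lt] at h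
    rw [homogeneousComponent_eq_zero d a (by omega), zero_mul]

/-- integrality -/
theorem integral_of_triv (F : κ → MvPolynomial (Fin n) ℂ) (e : κ → ℕ)
    (hF : ∀ k, (F k).IsHomogeneous (e k)) (l : Fin 2 → MvPolynomial (Fin n) ℂ)
    (hl : ∀ i, (l i).IsHomogeneous 1) (hT : Triv (Sum.elim F l))
    (y : Fin n → MvPolynomial σ ℂ) (hy : ∀ k, aeval y (F k) = 0) (j : Fin n) :
    IsIntegral (Algebra.adjoin ℂ (Set.range fun i => aeval y (l i))) (y j) := by
  set φ : MvPolynomial (Fin n) ℂ →ₐ[ℂ] MvPolynomial σ ℂ := aeval y with hφ
  set A0 : Subalgebra ℂ (MvPolynomial σ ℂ) :=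
    Algebra.adjoin ℂ (Set.range fun i => φ (l i)) with hA0
  have hmem : ∀ i, φ (l i) ∈ A0 := fun i => Algebra.subset_adjoin ⟨i, rfl⟩
  obtain ⟨K, hK⟩ : ∃ K, ∀ u : MvPolynomial (Fin n) ℂ, u.IsHomogeneous K →
      u ∈ Ideal.span (Set.range (Sum.elim F l)) := by
    apply Pool.Agent.Helper28.FolReg.hom_mem_of_radical
    intro i
    obtain ⟨K, hK⟩ := Pool.Agent.Helper1.FG.Triv.pow_mem hT (X i) 1 one_pos (isHomogeneous_X _ _)
    exact ⟨K, hK⟩
  -- components of members of the ideal
  have key : ∀ p ∈ Ideal.span (Set.range (Sum.elim F l)), ∀ (a : MvPolynomial (Fin n) ℂ) (d : ℕ),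
      ∃ q : Fin 2 → MvPolynomial (Fin n) ℂ, (∀ i, (q i).IsHomogeneous d) ∧
        φ (homogeneousComponent (d + 1) (a * p)) = ∑ i, φ (q i) * φ (l i) := by
    intro p hp
    induction hp using Submodule.span_induction with
    | mem x hx =>
      intro a d
      obtain ⟨k, rfl⟩ := hx
      rcases k with k | k
      · refine ⟨fun _ => 0, fun _ => isHomogeneous_zero _ _ _, ?_⟩
        simp only [Sum.elim_inl, map_zero, zero_mul, Finset.sum_const_zero]
        have hsum : a = ∑ i ∈ Finset.range (a.totalDegree + 1), homogeneousComponent i a :=
          (sum_homogeneousComponent a).symm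
        rw [hsum, Finset.sum_mul, map_sum, map_sum]
        refine Finset.sum_eq_zero (fun i _ => ?_)
        rw [homogeneousComponent_of_mem ((homogeneousComponent_isHomogeneous i a).mul (hF k))]
        split_ifs
        · rw [map_mul, hφ, hy k, mul_zero]
        · exact map_zero _
      · refine ⟨fun i => if i = k then homogeneousComponent d a else 0, ?_, ?_⟩
        · intro i
          dsimp only
          split_ifs
          · exact homogeneousComponent_isHomogeneous _ _
          · exact isHomogeneous_zero _ _ _
        · rw [Sum.elim_inr, hc_mul_one (hl k), map_mul, Finset.sum_eq_single k]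
          · dsimp only
            rw [if_pos rfl]
          · intro i _ hi
            dsimp only
            rw [if_neg hi, map_zero, zero_mul]
          · intro h
            exact absurd (Finset.mem_univ _) h
    | zero =>
      intro a d
      exact ⟨fun _ => 0, fun _ => isHomogeneous_zero _ _ _, by simp⟩
    | add x y _ _ hx hy =>
      intro a d
      obtain ⟨q, hq, h1⟩ := hx a d
      obtain ⟨q', hq', h2⟩ := hy a d
      refine ⟨fun i => q i + q' i, fun i => (hq i).add (hq' i), ?_⟩
      rw [mul_add, map_add, map_add, h1, h2, ← Finset.sum_add_distrib]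
      refine Finset.sum_congr rfl fun i _ => ?_
      rw [map_add, add_mul]
    | smul b x _ hx =>
      intro a d
      rw [smul_eq_mul, ← mul_assoc]
      exact hx (a * b) d
  -- a finite module
  let T : Set (Fin n →₀ ℕ) := {m | m.degree < K + 1}
  have hTfin : T.Finite := by
    refine (Set.finite_Iic (Finsupp.equivFunOnFinite.symm (fun _ : Fin n => K))).subset ?_
    intro m hm
    rw [Set.mem_Iic, Finsupp.le_iff]
    intro i _
    have h1 : m i ≤ m.degree := Finsupp.le_degree i m
    have h2 : m.degree < K + 1 := hm
    show m i ≤ K
    omega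
  let N : Submodule A0 (MvPolynomial σ ℂ) :=
    Submodule.span A0 ((fun m => φ (monomial m (1 : ℂ))) '' T)
  have hsmulC : ∀ (c : ℂ) (x : MvPolynomial σ ℂ), x ∈ N → c • x ∈ N := by
    intro c x hx
    have h1 : c • x = (algebraMap ℂ A0 c) • x := by
      rw [algebraMap_smul]
    rw [h1]
    exact N.smul_mem _ hx
  have hmul : ∀ a ∈ A0, ∀ x ∈ N, x * a ∈ N := by
    intro a ha x hx
    have h1 : x * a = (⟨a, ha⟩ : A0) • x := by
      rw [mul_comm]
      rfl
    rw [h1]
    exact N.smul_mem _ hx
  have hN : ∀ d : ℕ, ∀ u : MvPolynomial (Fin n) ℂ, u.IsHomogeneous d → φ u ∈ N := by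
    intro d
    induction d with
    | zero =>
      intro u hu
      rw [u.as_sum, map_sum]
      refine N.sum_mem fun m hm => ?_
      have h1 : m.degree = 0 := by
        have := hu (mem_support_iff.mp hm)
        rw [← this, Finsupp.degree_eq_weight_one]
        rfl
      have h2 : monomial m (coeff m u) = coeff m u • monomial m (1 : ℂ) := by
        rw [smul_monomial, smul_eq_mul, mul_one]
      rw [h2, map_smul]
      refine hsmulC _ _ (Submodule.subset_span ⟨m, ?_, rfl⟩)
      show m.degree < K + 1
      omega
    | succ d ih =>
      intro u hu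
      rw [u.as_sum, map_sum]
      refine N.sum_mem fun m hm => ?_
      have h1 : m.degree = d + 1 := by
        have := hu (mem_support_iff.mp hm)
        rw [← this, Finsupp.degree_eq_weight_one]
        rfl
      have h2 : monomial m (coeff m u) = coeff m u • monomial m (1 : ℂ) := by
        rw [smul_monomial, smul_eq_mul, mul_one]
      rw [h2, map_smul]
      apply hsmulC
      by_cases hK' : d + 1 < K + 1
      · exact Submodule.subset_span ⟨m, by show m.degree < K + 1; omega, rfl⟩
      · -- the monomial lies in the ideal
        have h3 : ∀ r : ℕ, ∀ m : Fin n →₀ ℕ, m.degree = K + r →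
            monomial m (1 : ℂ) ∈ Ideal.span (Set.range (Sum.elim F l)) := by
          intro r
          induction r with
          | zero =>
            intro m hm
            apply hK
            exact isHomogeneous_monomial _ hm
          | succ r ihr =>
            intro m hm
            obtain ⟨i, hi⟩ : ∃ i, m i ≠ 0 := by
              by_contra hcon
              push Not at hcon
              have : m = 0 := Finsupp.ext hcon
              rw [this, map_zero] at hm
              omega
            have h4 : m = Finsupp.single i 1 + (m - Finsupp.single i 1) := by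
              rw [add_tsub_cancel_of_le]
              rw [Finsupp.single_le_iff]
              omega
            have h5 : (m - Finsupp.single i 1).degree = K + r := by
              have h6 := congrArg Finsupp.degree h4
              rw [map_add, Finsupp.degree_single, hm] at h6
              omega
            rw [h4, ← one_mul (1 : ℂ), ← monomial_mul]
            exact Ideal.mul_mem_left _ _ (ihr _ h5)
        obtain ⟨q, hq, h4⟩ := key _ (h3 (d + 1 - K) m (by omega)) 1 d
        rw [one_mul, homogeneousComponent_of_mem (isHomogeneous_monomial (1 : ℂ) h1),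
          if_pos rfl] at h4
        rw [h4]
        exact N.sum_mem fun i _ => hmul _ (hmem i) _ (ih _ (hq i))
  refine isIntegral_of_smul_mem_submodule N ?_ ?_ (y j) ?_
  · intro h
    have h1 := hN 0 1 (isHomogeneous_one _ _)
    rw [h, map_one, Submodule.mem_bot] at h1
    exact one_ne_zero h1
  · exact Submodule.fg_span (hTfin.image _)
  · intro x hx
    induction hx using Submodule.span_induction with
    | mem x hx =>
      obtain ⟨m, _, rfl⟩ := hx
      have h1 : y j • φ (monomial m (1 : ℂ)) = φ (X j * monomial m (1 : ℂ)) := by
        rw [map_mul, hφ, aeval_X, smul_eq_mul]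
      show y j • φ (monomial m (1 : ℂ)) ∈ N
      rw [h1]
      exact hN _ _ ((isHomogeneous_X _ _).mul (isHomogeneous_monomial (1 : ℂ) rfl))
    | zero => rw [smul_zero]; exact N.zero_mem
    | add x y _ _ hx hy => rw [smul_add]; exact N.add_mem hx hy
    | smul a x _ hx =>
      rw [smul_comm]
      exact N.smul_mem _ hx

/-- derivations -/
theorem der_zero (F : κ → MvPolynomial (Fin n) ℂ) (e : κ → ℕ)
    (hF : ∀ k, (F k).IsHomogeneous (e k)) (l : Fin 2 → MvPolynomial (Fin n) ℂ)
    (hl : ∀ i, (l i).IsHomogeneous 1) (hT : Triv (Sum.elim F l))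
    (y : Fin n → MvPolynomial σ ℂ) (hy : ∀ k, aeval y (F k) = 0)
    (D : Derivation ℂ (MvPolynomial σ ℂ) (MvPolynomial σ ℂ)) (hD : ∀ i, D (aeval y (l i)) = 0)
    (j : Fin n) : D (y j) = 0 := by
  refine der_alg _ D ?_ _ (integral_of_triv F e hF l hl hT y hy j)
  intro a ha
  induction ha using Algebra.adjoin_induction with
  | mem x hx =>
    obtain ⟨i, rfl⟩ := hx
    exact hD i
  | algebraMap r => exact D.map_algebraMap r
  | add x y _ _ hx hy => rw [map_add, hx, hy, add_zero]
  | mul x y _ _ hx hy => rw [D.leibniz, hx, hy, smul_zero, smul_zero, add_zero]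

end

end Pool.Agent.Helper23.FG22
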