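import Mathlib

/-! Linear algebra for FG-22 (lemma (E1) of helper35): commuting and `aff` pencils of 5×5 matrices. -/

set_option autoImplicit false

namespace Pool.Agent.Helper23.FG22

open Module

variable {V : Type} [AddCommGroup V] [Module ℂ V] [FiniteDimensional ℂ V]

theorem nil_of (A : End ℂ V) (h : ∀ μ : ℂ, μ ≠ 0 → ∀ v, A v = μ • v → v = 0) :
    ∃ n, A ^ n = 0 := by
  have h1 := A.iSup_maxGenEigenspace_eq_top
  have h2 : ∀ μ : ℂ, μ ≠ 0 → A.maxGenEigenspace μ = ⊥ := by
    intro μ hμ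
    by_contra hne
    have h3 : A.HasEigenvalue μ := by
      rw [End.hasEigenvalue_iff]
      intro h4
      apply hne
      rw [End.maxGenEigenspace_eq_genEigenspace_finrank]
      by_contra h5
      exact (End.hasEigenvalue_of_hasGenEigenvalue (k := finrank ℂ V) (by
        rw [End.HasGenEigenvalue]
        exact h5) : A.HasEigenvalue μ) h4
    obtain ⟨v, hv⟩ := h3.exists_hasEigenvector
    exact hv.2 (h μ hμ v hv.apply_eq_smul)
  have h3 : A.maxGenEigenspace 0 = ⊤ := by
    rw [eq_top_iff, ← h1]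
    refine iSup_le fun μ => ?_
    by_cases hμ : μ = 0
    · rw [hμ]
    · rw [h2 μ hμ]
      exact bot_le
  refine ⟨finrank ℂ V, ?_⟩
  rw [End.maxGenEigenspace_eq_genEigenspace_finrank] at h3
  ext v
  have h4 : v ∈ A.genEigenspace 0 (finrank ℂ V) := by
    rw [h3]
    trivial
  rw [End.mem_genEigenspace_nat] at h4
  simpa using h4

/-- commuting pencils -/
theorem no_comm (hV : finrank ℂ V = 5) (W : Submodule ℂ V) (hW : finrank ℂ W = 2)
    (A B : End ℂ V) (hc : A * B = B * A)
    (hk : ∀ s t : ℂ, ¬ (s = 0 ∧ t = 0) → LinearMap.ker (s • A + t • B) = W) : False := by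
  have hcv : ∀ v, A (B v) = B (A v) := fun v => LinearMap.congr_fun hc v
  have hA : ∀ v, A v = 0 ↔ v ∈ W := by
    intro v
    rw [← hk 1 0 (by simp)]
    simp
  have hB : ∀ v, B v = 0 ↔ v ∈ W := by
    intro v
    rw [← hk 0 1 (by simp)]
    simp
  have hst : ∀ s t : ℂ, ¬ (s = 0 ∧ t = 0) → ∀ v, s • A v + t • B v = 0 → v ∈ W := by
    intro s t h v hv
    rw [← hk s t h]
    simpa using hv
  -- (a)
  obtain ⟨n, hn⟩ := nil_of A (by
    intro μ hμ v hv
    by_contra hv0
    let E := LinearMap.ker (A - μ • (1 : End ℂ V))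
    have hE : ∀ u, u ∈ E ↔ A u = μ • u := by
      intro u
      simp [E, sub_eq_zero]
    have hBE : ∀ u ∈ E, B u ∈ E := by
      intro u hu
      rw [hE] at hu ⊢
      rw [hcv, hu, map_smul]
    have : Nontrivial E := ⟨⟨⟨v, (hE v).2 hv⟩, 0, fun h => hv0 (congrArg Subtype.val h)⟩⟩
    obtain ⟨β, hβ⟩ := End.exists_eigenvalue (B.restrict hBE)
    obtain ⟨u, hu⟩ := hβ.exists_hasEigenvector
    have hu1 := congrArg Subtype.val hu.apply_eq_smul
    have hu1' : B (u : V) = β • (u : V) := hu1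
    have hu2 := (hE _).1 u.2
    have hu3 : (u : V) ∈ W := by
      refine hst β (-μ) (by simp [hμ]) _ ?_
      rw [hu1', hu2, smul_smul, smul_smul]
      rw [← add_smul]
      have : β * μ + -μ * β = 0 := by ring
      rw [this, zero_smul]
    have hu4 := (hA _).2 hu3
    rw [hu2, smul_eq_zero] at hu4
    rcases hu4 with h | h
    · exact hμ h
    · exact hu.2 (Subtype.ext h))
  -- (b)
  have hb : ¬ W ≤ LinearMap.range A := by
    intro hle
    have h1 : Function.Surjective (A.comp (W.comap A).subtype |>.codRestrict W (fun x => x.2)) := by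
      intro w
      obtain ⟨x, hx⟩ := hle w.2
      refine ⟨⟨x, ?_⟩, ?_⟩
      · show A x ∈ W
        rw [hx]
        exact w.2
      · exact Subtype.ext hx
    obtain ⟨σ, hσ⟩ := LinearMap.exists_rightInverse_of_surjective _ (LinearMap.range_eq_top.2 h1)
    have hσ' : ∀ w : W, A ((σ w : W.comap A) : V) = w := by
      intro w
      exact congrArg Subtype.val (LinearMap.congr_fun hσ w)
    have hBW : ∀ w : W, B ((σ w : W.comap A) : V) ∈ W := by
      intro w
      rw [← hA, hcv, hσ' w, hB]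
      exact w.2
    let T : W →ₗ[ℂ] W := ((B.comp (W.comap A).subtype).comp σ).codRestrict W hBW
    have : Nontrivial W := Module.nontrivial_of_finrank_pos (R := ℂ) (by omega)
    obtain ⟨μ, hμ⟩ := End.exists_eigenvalue T
    obtain ⟨w, hw⟩ := hμ.exists_hasEigenvector
    have hw1 : B ((σ w : W.comap A) : V) = μ • (w : V) := congrArg Subtype.val hw.apply_eq_smul
    have hw2 : ((σ w : W.comap A) : V) ∈ W := by
      refine hst (-μ) 1 (by simp) _ ?_
      rw [hσ', hw1, neg_smul, one_smul, neg_add_cancel]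
    have hw3 := (hA _).2 hw2
    rw [hσ'] at hw3
    exact hw.2 (Subtype.ext hw3)
  have hb1 : finrank ℂ (W ⊓ LinearMap.range A : Submodule ℂ V) ≤ 1 := by
    have h1 : W ⊓ LinearMap.range A < W := lt_of_le_of_ne inf_le_left (fun h => hb (inf_eq_left.1 h))
    have := Submodule.finrank_lt_finrank_of_lt h1
    omega
  -- (c)
  have hcc : ∀ v, A (A v) ∈ W → A v ∈ W := by
    intro v hv
    have h1 : A (B v) ∈ W := by
      rw [← hA, hcv, hcv]
      exact (hB _).2 hv
    let x : (W ⊓ LinearMap.range A : Submodule ℂ V) := ⟨A (A v), hv, ⟨_, rfl⟩⟩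
    let y : (W ⊓ LinearMap.range A : Submodule ℂ V) := ⟨A (B v), h1, ⟨_, rfl⟩⟩
    have h2 : ∃ s t : ℂ, ¬ (s = 0 ∧ t = 0) ∧ s • x + t • y = 0 := by
      by_contra hcon
      push Not at hcon
      have hli : LinearIndependent ℂ ![x, y] := by
        rw [LinearIndependent.pair_iff]
        intro s t hst0
        by_contra hne
        exact hcon s t (fun hs ht => hne ⟨hs, ht⟩) hst0
      have := hli.fintype_card_le_finrank
      simp at this
      omega
    obtain ⟨s, t, hne, hxy⟩ := h2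
    have h3 : s • A (A v) + t • A (B v) = 0 := congrArg Subtype.val hxy
    rw [hcv] at h3
    exact hst s t hne _ h3
  -- (d)
  have hd : ∀ m v, A ((A ^ m) v) ∈ W → A v ∈ W := by
    intro m
    induction m with
    | zero => intro v hv; simpa using hv
    | succ m ih =>
      intro v hv
      apply ih
      apply hcc
      rwa [pow_succ'] at hv
  have he : LinearMap.range A ≤ W := by
    rintro _ ⟨v, rfl⟩
    apply hd n
    rw [hn]
    simp
  have hf := A.finrank_range_add_finrank_ker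
  have hkA : LinearMap.ker A = W := by
    ext v
    rw [LinearMap.mem_ker, hA]
  rw [hkA, hW, hV] at hf
  have := Submodule.finrank_mono he
  omega

section aff
variable {U Y : End ℂ V} {W : Submodule ℂ V}

omit [FiniteDimensional ℂ V] in
theorem aff_pow (h : U * Y - Y * U = Y) (j : ℕ) (v : V) :
    U ((Y ^ j) v) = (Y ^ j) (U v + (j : ℂ) • v) := by
  induction j generalizing v with
  | zero => simp
  | succ j ih =>
    have h1 : ∀ x, U (Y x) = Y (U x) + Y x := by
      intro x
      have := LinearMap.congr_fun h x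
      simp only [LinearMap.sub_apply, Module.End.mul_apply] at this
      exact sub_eq_iff_eq_add'.1 this
    rw [pow_succ, Module.End.mul_apply, Module.End.mul_apply, ih, h1]
    congr 1
    simp only [map_add, map_smul, Nat.cast_add, Nat.cast_one, add_smul, one_smul]
    abel

theorem aff_nil (h : U * Y - Y * U = Y) : ∃ n, Y ^ n = 0 := by
  by_contra hcon
  push Not at hcon
  let ad : End ℂ (End ℂ V) := LinearMap.mulLeft ℂ U - LinearMap.mulRight ℂ U
  have h1 : ∀ j : ℕ, ad (Y ^ j) = (j : ℂ) • Y ^ j := by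
    intro j
    ext v
    have := aff_pow h j v
    simp only [ad, LinearMap.sub_apply, LinearMap.mulLeft_apply, LinearMap.mulRight_apply,
      Module.End.mul_apply, LinearMap.smul_apply]
    rw [this, map_add, map_smul]
    abel
  have h2 : Set.range (fun j : ℕ => (j : ℂ)) ⊆ {μ | ad.HasEigenvalue μ} := by
    rintro _ ⟨j, rfl⟩
    exact End.hasEigenvalue_of_hasEigenvector ⟨End.mem_eigenspace_iff.2 (h1 j), hcon j⟩
  exact Set.infinite_range_of_injective Nat.cast_injective (ad.finite_hasEigenvalue.subset h2)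

/-- an endomorphism commuting with the pair -/
theorem aff_cent (h : U * Y - Y * U = Y) (hY : ∀ v, Y v = 0 → v ∈ W) (hU : ∀ v ∈ W, U v = 0)
    {B : End ℂ V} (hBU : B * U = U * B) (hBY : B * Y = Y * B) (hBW : ∀ v ∈ W, B v = 0) : B = 0 := by
  have h1 : ∀ j v, (Y ^ (j + 1)) v = 0 → B v = 0 := by
    intro j
    induction j with
    | zero =>
      intro v hv
      rw [zero_add, pow_one] at hv
      exact hBW v (hY v hv)
    | succ j ih =>
      intro v hv
      have h2 : Y (B v) = 0 := by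
        have h3 := LinearMap.congr_fun hBY v
        simp only [Module.End.mul_apply] at h3
        rw [← h3]
        apply ih
        rwa [pow_succ] at hv
      have h3 : B (U v) = 0 := by
        have h4 := LinearMap.congr_fun hBU v
        simp only [Module.End.mul_apply] at h4
        rw [h4]
        exact hU _ (hY _ h2)
      have h4 : (Y ^ (j + 1)) (U v + ((j + 1 : ℕ) : ℂ) • v) = 0 := by
        rw [← aff_pow h]
        apply hU
        apply hY
        rwa [pow_succ'] at hv
      have h5 := ih _ h4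
      rw [map_add, h3, zero_add, map_smul, smul_eq_zero] at h5
      rcases h5 with h5 | h5
      · exact absurd h5 (Nat.cast_ne_zero.2 (Nat.succ_ne_zero j))
      · exact h5
  obtain ⟨n, hn⟩ := aff_nil h
  ext v
  apply h1 n
  rw [pow_succ', hn, mul_zero]
  rfl

/-- the trace of the semisimple member -/
theorem aff_trace (h : U * Y - Y * U = Y) (hY : ∀ v, Y v = 0 ↔ v ∈ W) (hU : ∀ v ∈ W, U v = 0)
    (hY0 : Y ≠ 0) : LinearMap.trace ℂ V U ≠ 0 := by
  obtain ⟨n, hn⟩ := aff_nil h
  -- eigenvalues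
  have h1 : ∀ μ : ℂ, U.HasEigenvalue μ → ∃ j : ℕ, μ = -(j : ℂ) := by
    intro μ hμ
    obtain ⟨v, hv⟩ := hμ.exists_hasEigenvector
    have h2 : ∃ j, (Y ^ j) v ≠ 0 ∧ (Y ^ (j + 1)) v = 0 := by
      by_contra hcon
      push Not at hcon
      have h3 : ∀ j, (Y ^ j) v ≠ 0 := by
        intro j
        induction j with
        | zero => simpa using hv.2
        | succ j ih => exact hcon j ih
      apply h3 n
      rw [hn]
      rfl
    obtain ⟨j, hj1, hj2⟩ := h2
    refine ⟨j, ?_⟩
    have h3 := aff_pow h j v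
    rw [hU _ ((hY _).1 (by rwa [pow_succ'] at hj2)), hv.apply_eq_smul, ← add_smul, map_smul] at h3
    rcases smul_eq_zero.1 h3.symm with h4 | h4
    · exact eq_neg_of_add_eq_zero_left h4
    · exact absurd h4 hj1
  -- the eigenvalue -1
  have h2 : U.HasEigenvalue (-1) := by
    have h3 : ∃ v, Y v ≠ 0 ∧ Y (Y v) = 0 := by
      by_contra hcon
      push Not at hcon
      obtain ⟨v, hv⟩ : ∃ v, Y v ≠ 0 := by
        by_contra hcon2
        push Not at hcon2
        exact hY0 (LinearMap.ext hcon2)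
      have h4 : ∀ j, (Y ^ j) (Y v) ≠ 0 := by
        intro j
        induction j with
        | zero => simpa using hv
        | succ j ih =>
          have h5 : (Y ^ j) (Y v) = Y ((Y ^ j) v) := by
            rw [← Module.End.mul_apply, ← Module.End.mul_apply, ← pow_succ, pow_succ']
          rw [pow_succ', Module.End.mul_apply, h5]
          apply hcon
          rwa [h5] at ih
      apply h4 n
      rw [hn]
      rfl
    obtain ⟨v, hv1, hv2⟩ := h3
    have h4 := aff_pow h 1 v
    rw [pow_one, hU _ ((hY _).1 hv2)] at h4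
    have h5 := (hY _).1 h4.symm
    have h6 := hU _ h5
    simp only [Nat.cast_one, one_smul] at h5 h6
    refine End.hasEigenvalue_of_hasEigenvector (x := v - (U v + v)) ⟨End.mem_eigenspace_iff.2 ?_, ?_⟩
    · rw [map_sub, h6]
      simp
    · intro h7
      apply hv1
      rw [sub_eq_zero] at h7
      rw [h7]
      exact (hY _).2 h5
  -- the trace
  rw [Module.End.trace_eq_sum_roots_charpoly_of_splits (IsAlgClosed.splits _)]
  have h3 : ∀ μ ∈ U.charpoly.roots, ∃ j : ℕ, μ = -(j : ℂ) := by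
    intro μ hμ
    exact h1 μ ((End.hasEigenvalue_iff_isRoot_charpoly U μ).2 (Polynomial.isRoot_of_mem_roots hμ))
  have h4 : (-1 : ℂ) ∈ U.charpoly.roots := by
    rw [Polynomial.mem_roots (U.charpoly_monic.ne_zero)]
    exact (End.hasEigenvalue_iff_isRoot_charpoly U _).1 h2
  obtain ⟨s, hs⟩ := Multiset.exists_cons_of_mem h4
  rw [hs, Multiset.sum_cons]
  have h5 : ∀ t : Multiset ℂ, (∀ μ ∈ t, ∃ j : ℕ, μ = -(j : ℂ)) → ∃ j : ℕ, t.sum = -(j : ℂ) := by
    intro t
    induction t using Multiset.induction with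
    | empty => intro _; exact ⟨0, by simp⟩
    | cons a t ih =>
      intro ht
      obtain ⟨j, hj⟩ := ih (fun μ hμ => ht μ (Multiset.mem_cons_of_mem hμ))
      obtain ⟨i, hi⟩ := ht a (Multiset.mem_cons_self a t)
      refine ⟨i + j, ?_⟩
      rw [Multiset.sum_cons, hj, hi]
      push_cast
      ring
  obtain ⟨j, hj⟩ := h5 s (fun μ hμ => h3 μ (by rw [hs]; exact Multiset.mem_cons_of_mem hμ))
  rw [hj]
  intro h6
  have h7 : ((1 + j : ℕ) : ℂ) = 0 := by
    push_cast
    linear_combination -h6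
  exact absurd (Nat.cast_eq_zero.1 h7) (by omega)

end aff

/-- pairs in a Lie algebra of endomorphisms -/
theorem pair (H : Submodule ℂ (End ℂ V)) (hH : ∀ X ∈ H, ∀ Y ∈ H, X * Y - Y * X ∈ H)
    (h2 : 2 ≤ finrank ℂ H) : ∃ U ∈ H, ∃ Y ∈ H, LinearIndependent ℂ ![U, Y] ∧
      (U * Y - Y * U = 0 ∨ U * Y - Y * U = Y) := by
  have : Nontrivial H := Module.nontrivial_of_finrank_pos (R := ℂ) (by omega)
  obtain ⟨X, hX⟩ := exists_ne (0 : H)
  let ad : H →ₗ[ℂ] H :=
    ((LinearMap.mulLeft ℂ (X : End ℂ V) - LinearMap.mulRight ℂ (X : End ℂ V)).comp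
      H.subtype).codRestrict H (fun Y => hH _ X.2 _ Y.2)
  have had : ∀ Y : H, ((ad Y : H) : End ℂ V) = (X : End ℂ V) * Y - Y * X := fun Y => rfl
  let N : Submodule ℂ H := Submodule.span ℂ {X}
  have hN : N ≤ N.comap ad := by
    rw [Submodule.span_le, Set.singleton_subset_iff]
    show ad X ∈ N
    have : ad X = 0 := by
      apply Subtype.ext
      rw [had]
      simp
    rw [this]
    exact N.zero_mem
  have hNf : finrank ℂ N = 1 := finrank_span_singleton hX
  have : Nontrivial (H ⧸ N) := by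
    rw [Submodule.Quotient.nontrivial_iff]
    intro h
    rw [h, finrank_top] at hNf
    omega
  obtain ⟨μ, hμ⟩ := End.exists_eigenvalue (N.mapQ N ad hN)
  obtain ⟨q, hq⟩ := hμ.exists_hasEigenvector
  obtain ⟨Y, rfl⟩ := Submodule.Quotient.mk_surjective N q
  have hq1 := hq.apply_eq_smul
  rw [Submodule.mapQ_apply, ← Submodule.Quotient.mk_smul, Submodule.Quotient.eq,
    Submodule.mem_span_singleton] at hq1
  obtain ⟨a, ha⟩ := hq1
  have ha' : (X : End ℂ V) * Y - Y * X = μ • (Y : End ℂ V) + a • (X : End ℂ V) := by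
    have := congrArg Subtype.val ha
    rw [Submodule.coe_sub, had] at this
    rw [← sub_eq_iff_eq_add']
    exact this.symm
  have hYN : Y ∉ N := by
    intro h
    exact hq.2 ((Submodule.Quotient.mk_eq_zero N).2 h)
  have hX' : (X : End ℂ V) ≠ 0 := fun h => hX (Subtype.ext h)
  have hli : ∀ s t : ℂ, s • (X : End ℂ V) + t • (Y : End ℂ V) = 0 → s = 0 ∧ t = 0 := by
    intro s t hst
    have ht : t = 0 := by
      by_contra ht
      apply hYN
      rw [Submodule.mem_span_singleton]
      refine ⟨-(t⁻¹ * s), Subtype.ext ?_⟩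
      show -(t⁻¹ * s) • (X : End ℂ V) = (Y : End ℂ V)
      have h5 : (Y : End ℂ V) = t⁻¹ • (t • (Y : End ℂ V)) := by
        rw [smul_smul, inv_mul_cancel₀ ht, one_smul]
      rw [h5, eq_neg_of_add_eq_zero_right hst, smul_neg, smul_smul, neg_smul]
    rw [ht, zero_smul, add_zero, smul_eq_zero] at hst
    exact ⟨hst.resolve_right hX', ht⟩
  by_cases hμ0 : μ = 0
  · rw [hμ0, zero_smul, zero_add] at ha'
    by_cases ha0 : a = 0
    · refine ⟨X, X.2, Y, Y.2, ?_, Or.inl ?_⟩
      · rw [LinearIndependent.pair_iff]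
        exact hli
      · rw [ha', ha0, zero_smul]
    · refine ⟨-(a⁻¹ • (Y : End ℂ V)), H.neg_mem (H.smul_mem _ Y.2), X, X.2, ?_, Or.inr ?_⟩
      · rw [LinearIndependent.pair_iff]
        intro s t hst
        have h6 : t • (X : End ℂ V) + (-(s * a⁻¹)) • (Y : End ℂ V) = 0 := by
          rw [← hst]
          rw [smul_neg, smul_smul, neg_smul]
          abel
        obtain ⟨h7, h8⟩ := hli _ _ h6
        rw [neg_eq_zero, mul_eq_zero] at h8
        exact ⟨h8.resolve_right (inv_ne_zero ha0), h7⟩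
      · have h6 : -(a⁻¹ • (Y : End ℂ V)) * X - X * -(a⁻¹ • (Y : End ℂ V)) =
            a⁻¹ • ((X : End ℂ V) * Y - Y * X) := by
          rw [smul_sub, mul_neg, neg_mul, smul_mul_assoc, mul_smul_comm]
          abel
        rw [h6, ha', smul_smul, inv_mul_cancel₀ ha0, one_smul]
  · refine ⟨μ⁻¹ • (X : End ℂ V), H.smul_mem _ X.2, (Y : End ℂ V) + (μ⁻¹ * a) • (X : End ℂ V),
      H.add_mem Y.2 (H.smul_mem _ X.2), ?_, Or.inr ?_⟩
    · rw [LinearIndependent.pair_iff]
      intro s t hst
      have h6 : (s * μ⁻¹ + t * (μ⁻¹ * a)) • (X : End ℂ V) + t • (Y : End ℂ V) = 0 := by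
        rw [← hst, smul_add, smul_smul, smul_smul, add_smul]
        abel
      obtain ⟨h7, h8⟩ := hli _ _ h6
      rw [h8, zero_mul, add_zero, mul_eq_zero] at h7
      exact ⟨h7.resolve_right (inv_ne_zero hμ0), h8⟩
    · have h6 : μ⁻¹ • (X : End ℂ V) * ((Y : End ℂ V) + (μ⁻¹ * a) • (X : End ℂ V)) -
          ((Y : End ℂ V) + (μ⁻¹ * a) • (X : End ℂ V)) * (μ⁻¹ • (X : End ℂ V)) =
          μ⁻¹ • ((X : End ℂ V) * Y - Y * X) := by
        simp only [mul_add, add_mul, smul_mul_assoc, mul_smul_comm, smul_sub, smul_add]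
        rw [smul_comm μ⁻¹ (μ⁻¹ * a) ((X : End ℂ V) * X)]
        abel
      rw [h6, ha', smul_add, smul_smul, smul_smul, inv_mul_cancel₀ hμ0, one_smul]

theorem ker_big {E F : Type} [AddCommGroup E] [Module ℂ E] [FiniteDimensional ℂ E]
    [AddCommGroup F] [Module ℂ F] (G : Submodule ℂ E) (f : E →ₗ[ℂ] F) :
    finrank ℂ G = finrank ℂ (G.map f) + finrank ℂ (G ⊓ LinearMap.ker f : Submodule ℂ E) := by
  have h1 := (f.domRestrict G).finrank_range_add_finrank_ker
  rw [LinearMap.range_domRestrict] at h1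
  rw [← h1, ← Submodule.map_comap_subtype, Submodule.finrank_map_subtype_eq]
  rfl

/-- the main statement of the linear algebra -/
theorem no_alg (hV : finrank ℂ V = 5) (G : Submodule ℂ (End ℂ V))
    (hG : ∀ X ∈ G, ∀ Y ∈ G, X * Y - Y * X ∈ G) (hG3 : finrank ℂ G = 3) (W : Submodule ℂ V)
    (hW : finrank ℂ W = 2) (hk : ∀ X ∈ G, X ≠ 0 → finrank ℂ (LinearMap.ker X) ≤ 2)
    (hs : ∀ X ∈ G, ∃ c : ℂ, ∀ w ∈ W, X w = c • w) (hn : ∀ c : ℂ, c ≠ 0 → c • (1 : End ℂ V) ∉ G) :
    False := by
  have : Nontrivial W := Module.nontrivial_of_finrank_pos (R := ℂ) (by omega)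
  obtain ⟨⟨w0, hw0W⟩, hw0⟩ := exists_ne (0 : W)
  have hw0' : w0 ≠ 0 := fun h => hw0 (Subtype.ext h)
  let ev : End ℂ V →ₗ[ℂ] V := LinearMap.applyₗ w0
  have hev : ∀ X, ev X = X w0 := fun X => rfl
  let H : Submodule ℂ (End ℂ V) := G ⊓ LinearMap.ker ev
  have hHG : ∀ X ∈ H, X ∈ G := fun X hX => hX.1
  have hHW : ∀ X ∈ H, ∀ w ∈ W, X w = 0 := by
    intro X hX w hw
    obtain ⟨c, hc⟩ := hs X hX.1
    have h1 : X w0 = 0 := hX.2
    rw [hc w0 hw0W, smul_eq_zero] at h1
    rw [hc w hw, h1.resolve_right hw0', zero_smul]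
  have hHm : ∀ X ∈ G, X w0 = 0 → X ∈ H := fun X hX h => ⟨hX, h⟩
  have hGH : ∀ X ∈ G, ∀ Y ∈ H, X * Y - Y * X ∈ H := by
    intro X hX Y hY
    apply hHm _ (hG X hX Y hY.1)
    obtain ⟨c, hc⟩ := hs X hX
    rw [LinearMap.sub_apply, Module.End.mul_apply, Module.End.mul_apply, hc w0 hw0W, map_smul,
      hHW Y hY w0 hw0W]
    simp
  have hHH : ∀ X ∈ H, ∀ Y ∈ H, X * Y - Y * X ∈ H := fun X hX Y hY => hGH X hX.1 Y hY
  have hker : ∀ X ∈ H, X ≠ 0 → LinearMap.ker X = W := by
    intro X hX hX0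
    symm
    refine Submodule.eq_of_le_of_finrank_le (fun w hw => hHW X hX w hw) ?_
    rw [hW]
    exact hk X hX.1 hX0
  have hkm : ∀ X ∈ H, X ≠ 0 → ∀ v, X v = 0 ↔ v ∈ W := by
    intro X hX hX0 v
    rw [← hker X hX hX0, LinearMap.mem_ker]
  have hH2 : 2 ≤ finrank ℂ H := by
    have h1 := ker_big G ev
    have h2 : G.map ev ≤ Submodule.span ℂ {w0} := by
      rintro _ ⟨X, hX, rfl⟩
      obtain ⟨c, hc⟩ := hs X hX
      rw [hev, hc w0 hw0W]
      exact Submodule.smul_mem _ _ (Submodule.mem_span_singleton_self w0)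
    have h3 := Submodule.finrank_mono h2
    rw [finrank_span_singleton hw0'] at h3
    show 2 ≤ finrank ℂ (G ⊓ LinearMap.ker ev : Submodule ℂ (End ℂ V))
    omega
  -- pairs do not commute
  have hcomm : ∀ U ∈ H, ∀ Y ∈ H, LinearIndependent ℂ ![U, Y] → U * Y - Y * U ≠ 0 := by
    intro U hU Y hY hli h0
    rw [LinearIndependent.pair_iff] at hli
    refine no_comm hV W hW U Y (sub_eq_zero.1 h0) ?_
    intro s t hst
    apply hker _ (H.add_mem (H.smul_mem _ hU) (H.smul_mem _ hY))
    intro h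
    exact hst (hli s t h)
  let tr : End ℂ V →ₗ[ℂ] ℂ := LinearMap.trace ℂ V
  let H0 : Submodule ℂ (End ℂ V) := H ⊓ LinearMap.ker tr
  have hH0 : finrank ℂ H0 ≤ 1 := by
    by_contra hcon
    have h2 : 2 ≤ finrank ℂ H0 := by omega
    obtain ⟨U, hU, Y, hY, hli, h⟩ := pair H0 (by
      intro X hX Y hY
      refine ⟨hHH X hX.1 Y hY.1, ?_⟩
      show LinearMap.trace ℂ V (X * Y - Y * X) = 0
      rw [map_sub, LinearMap.trace_mul_comm, sub_self]) h2
    rcases h with h | h
    · exact hcomm U hU.1 Y hY.1 hli h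
    · have hY0 : Y ≠ 0 := by
        have := hli.ne_zero 1
        simpa using this
      exact aff_trace h (hkm Y hY.1 hY0) (fun w hw => hHW U hU.1 w hw) hY0 hU.2
  have hH3 : finrank ℂ H = 2 := by
    have h1 := ker_big H tr
    have h2 : finrank ℂ (H.map tr) ≤ 1 := by
      have := Submodule.finrank_le (H.map tr)
      rwa [finrank_self] at this
    have h3 : finrank ℂ (H ⊓ LinearMap.ker tr : Submodule ℂ (End ℂ V)) ≤ 1 := hH0
    omega
  obtain ⟨U, hU, Y, hY, hli, h⟩ := pair H hHH hH2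
  have h := h.resolve_left (hcomm U hU Y hY hli)
  have hY0 : Y ≠ 0 := by
    have := hli.ne_zero 1
    simpa using this
  have hli' := LinearIndependent.pair_iff.1 hli
  -- H is spanned by U, Y
  have hspan : ∀ X ∈ H, ∃ a b : ℂ, X = a • U + b • Y := by
    have h1 : Submodule.span ℂ (Set.range ![U, Y]) = H := by
      apply Submodule.eq_of_le_of_finrank_le
      · rw [Submodule.span_le]
        rintro _ ⟨i, rfl⟩
        fin_cases i
        · exact hU
        · exact hY
      · rw [finrank_span_eq_card hli, hH3]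
        simp
    intro X hX
    rw [← h1, Matrix.range_cons, Matrix.range_cons, Matrix.range_empty, Set.union_empty,
      Set.singleton_union, Submodule.mem_span_pair] at hX
    obtain ⟨a, b, hab⟩ := hX
    exact ⟨a, b, hab.symm⟩
  -- a third element
  obtain ⟨Z, hZG, hZH⟩ : ∃ Z ∈ G, Z ∉ H := by
    by_contra hcon
    push Not at hcon
    have := Submodule.finrank_mono (show G ≤ H from hcon)
    omega
  obtain ⟨c, hc⟩ := hs Z hZG
  have hc0 : c ≠ 0 := by
    intro h0
    apply hZH
    apply hHm Z hZG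
    rw [hc w0 hw0W, h0, zero_smul]
  obtain ⟨p, q, hpq⟩ := hspan _ (hGH Z hZG U hU)
  obtain ⟨r, s, hrs⟩ := hspan _ (hGH Z hZG Y hY)
  have hjac : r • U + s • Y = (p + s) • Y := by
    have e1 : Z * (U * Y - Y * U) - (U * Y - Y * U) * Z =
        (Z * U - U * Z) * Y - Y * (Z * U - U * Z) + (U * (Z * Y - Y * Z) - (Z * Y - Y * Z) * U) := by
      noncomm_ring
    rw [h, hpq, hrs] at e1
    have e2 : (p • U + q • Y) * Y - Y * (p • U + q • Y) + (U * (r • U + s • Y) -
        (r • U + s • Y) * U) = (p + s) • (U * Y - Y * U) := by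
      simp only [add_mul, mul_add, smul_mul_assoc, mul_smul_comm, add_smul, smul_sub]
      abel
    rw [e2, h] at e1
    exact e1
  have hr : r = 0 ∧ -p = 0 := by
    apply hli' r (-p)
    rw [add_smul, add_comm] at hjac
    have := add_right_cancel (b := s • Y) (a := r • U) (c := p • Y) (by
      rw [add_comm (r • U)]
      exact hjac)
    rw [this, neg_smul, add_neg_cancel]
  have hp : p = 0 := neg_eq_zero.1 hr.2
  rw [hr.1, zero_smul, zero_add] at hrs
  rw [hp, zero_smul, zero_add] at hpq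
  let Z' : End ℂ V := Z - s • U + q • Y
  have hZ' : Z' ∈ G := G.add_mem (G.sub_mem hZG (G.smul_mem _ hU.1)) (G.smul_mem _ hY.1)
  have hB : Z' - c • (1 : End ℂ V) = 0 := by
    refine aff_cent (W := W) h (fun v hv => (hkm Y hY hY0 v).1 hv) (fun w hw => hHW U hU w hw)
      ?_ ?_ ?_
    · rw [← sub_eq_zero]
      have e1 : (Z' - c • (1 : End ℂ V)) * U - U * (Z' - c • (1 : End ℂ V)) =
          (Z * U - U * Z) - q • (U * Y - Y * U) := by
        simp only [Z', add_mul, sub_mul, mul_add, mul_sub, smul_mul_assoc, mul_smul_comm, one_mul,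
          mul_one, smul_sub]
        abel
      rw [e1, hpq, h, sub_self]
    · rw [← sub_eq_zero]
      have e1 : (Z' - c • (1 : End ℂ V)) * Y - Y * (Z' - c • (1 : End ℂ V)) =
          (Z * Y - Y * Z) - s • (U * Y - Y * U) := by
        simp only [Z', add_mul, sub_mul, mul_add, mul_sub, smul_mul_assoc, mul_smul_comm, one_mul,
          mul_one, smul_sub]
        abel
      rw [e1, hrs, h, sub_self]
    · intro w hw
      simp only [Z', LinearMap.sub_apply, LinearMap.add_apply, LinearMap.smul_apply]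
      rw [hc w hw, hHW U hU w hw, hHW Y hY w hw]
      simp
  apply hn c hc0
  rw [← sub_eq_zero.1 hB]
  exact hZ'

end Pool.Agent.Helper23.FG22
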